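import Mathlib

set_option autoImplicit false

namespace Pool.Agent.Helper755.PrimGame

open Finset

/-- Legal move. -/
def Legal (n : ℕ) (S : Finset ℕ) (x : ℕ) : Prop :=
  x ∈ Finset.Icc 2 n ∧ ∀ y ∈ S, ¬ x ∣ y ∧ ¬ y ∣ x

def Prim (n : ℕ) (S : Finset ℕ) : Prop :=
  S ⊆ Finset.Icc 2 n ∧ ∀ a ∈ S, ∀ b ∈ S, a ∣ b → a = b

def Terminal (n : ℕ) (S : Finset ℕ) : Prop :=
  ∀ x ∈ Finset.Icc 2 n, ∃ y ∈ S, x ∣ y ∨ y ∣ x

/-- Step-closure of the winning predicate. -/
structure Win (n : ℕ) (W : Finset ℕ → Prop) : Prop where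
  empty : W ∅
  even : ∀ S, W S → Even S.card → (∃ x, Legal n S x) → ∃ x, Legal n S x ∧ W (insert x S)
  odd : ∀ S, W S → ¬ Even S.card → ∀ x, Legal n S x → W (insert x S)

lemma not_terminal_iff (n : ℕ) (S : Finset ℕ) : ¬ Terminal n S ↔ ∃ x, Legal n S x := by
  unfold Terminal Legal
  push Not
  constructor
  · rintro ⟨x, hx, h⟩
    exact ⟨x, hx, h⟩
  · rintro ⟨x, hx, h⟩
    exact ⟨x, hx, h⟩

lemma Legal.notMem {n : ℕ} {S : Finset ℕ} {x : ℕ} (h : Legal n S x) : x ∉ S := by
  intro hx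
  exact (h.2 x hx).1 dvd_rfl

lemma Prim.insert {n : ℕ} {S : Finset ℕ} {x : ℕ} (hS : Prim n S) (h : Legal n S x) :
    Prim n (insert x S) := by
  refine ⟨?_, ?_⟩
  · intro a ha
    rcases Finset.mem_insert.1 ha with rfl | ha
    · exact h.1
    · exact hS.1 ha
  · intro a ha b hb hab
    rcases Finset.mem_insert.1 ha with ha' | ha' <;> rcases Finset.mem_insert.1 hb with hb' | hb'
    · rw [ha', hb']
    · rw [ha'] at hab; exact absurd hab (h.2 b hb').1
    · rw [hb'] at hab; exact absurd hab (h.2 a ha').2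
    · exact hS.2 a ha' b hb' hab

lemma prim_empty (n : ℕ) : Prim n ∅ := by
  refine ⟨by simp, by simp⟩

/-- survivors -/
noncomputable def U (q : ℕ) (S : Finset ℕ) : Finset ℕ := by
  classical
  exact (Finset.Ioc q (2 * q)).filter (fun m => ∀ c ∈ S, Odd c → ¬ c ∣ m)

lemma mem_U {q : ℕ} {S : Finset ℕ} {m : ℕ} :
    m ∈ U q S ↔ (q < m ∧ m ≤ 2 * q) ∧ ∀ c ∈ S, Odd c → ¬ c ∣ m := by
  classical
  simp [U]

lemma U_anti {q : ℕ} {S T : Finset ℕ} (h : S ⊆ T) : U q T ⊆ U q S := by
  intro m hm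
  rw [mem_U] at hm ⊢
  exact ⟨hm.1, fun c hc => hm.2 c (h hc)⟩

/-- the doubling map -/
def dbl (n a : ℕ) : ℕ := a * 2 ^ (Nat.log 2 (n / a))

lemma dbl_le {n a : ℕ} (ha : 0 < a) (han : a ≤ n) : dbl n a ≤ n := by
  unfold dbl
  have h1 : n / a ≠ 0 := by
    have := Nat.div_pos han ha
    omega
  have := Nat.pow_log_le_self 2 h1
  calc a * 2 ^ Nat.log 2 (n / a) ≤ a * (n / a) := Nat.mul_le_mul_left _ this
    _ ≤ n := Nat.mul_div_le n a

lemma lt_two_dbl {n a : ℕ} (ha : 0 < a) : n < 2 * dbl n a := by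
  unfold dbl
  have h1 : n / a < 2 ^ (Nat.log 2 (n / a) + 1) := Nat.lt_pow_succ_log_self (by norm_num) _
  have h2 : n < a * 2 ^ (Nat.log 2 (n / a) + 1) := by
    have := (Nat.div_lt_iff_lt_mul ha).1 h1
    rw [mul_comm]; exact this
  calc n < a * 2 ^ (Nat.log 2 (n / a) + 1) := h2
    _ = 2 * (a * 2 ^ Nat.log 2 (n / a)) := by ring

lemma final_count {q : ℕ} {S T : Finset ℕ} (hST : S ⊆ T) (hT : Prim (2 * q) T) :
    T.card ≤ S.card + (U q S).card := by
  classical
  have h1 : (T \ S).card ≤ (U q S).card := by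
    apply Finset.card_le_card_of_injOn (dbl (2 * q))
    · intro a ha
      have ha' := Finset.mem_sdiff.1 ha
      have h2 := Finset.mem_Icc.1 (hT.1 ha'.1)
      have hpos : 0 < a := by omega
      have h3 := dbl_le hpos h2.2
      have h4 := lt_two_dbl (n := 2 * q) hpos
      have : dbl (2 * q) a ∈ U q S := by
        rw [mem_U]
        refine ⟨⟨by omega, h3⟩, ?_⟩
        intro c hc hodd hdvd
        have hca : c ∣ a := by
          have hcop : Nat.Coprime c (2 ^ Nat.log 2 (2 * q / a)) :=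
            Nat.Coprime.pow_right _ (Nat.coprime_two_right.2 hodd)
          exact hcop.dvd_of_dvd_mul_right hdvd
        have := hT.2 c (hST hc) a ha'.1 hca
        subst this
        exact ha'.2 hc
      exact_mod_cast this
    · intro a ha b hb hab
      have ha' := (Finset.mem_sdiff.1 ha).1
      have hb' := (Finset.mem_sdiff.1 hb).1
      simp only [dbl] at hab
      set k := Nat.log 2 (2 * q / a)
      set l := Nat.log 2 (2 * q / b)
      rcases le_total k l with h | h
      · have : b ∣ a := by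
          have h5 : a * 2 ^ k = (b * 2 ^ (l - k)) * 2 ^ k := by
            rw [hab, mul_assoc, ← pow_add]; congr 2; omega
          have h6 : a = b * 2 ^ (l - k) := Nat.eq_of_mul_eq_mul_right (by positivity) h5
          exact ⟨_, h6⟩
        exact (hT.2 b hb' a ha' this).symm
      · have : a ∣ b := by
          have h5 : b * 2 ^ l = (a * 2 ^ (k - l)) * 2 ^ l := by
            rw [← hab, mul_assoc, ← pow_add]; congr 2; omega
          have h6 : b = a * 2 ^ (k - l) := Nat.eq_of_mul_eq_mul_right (by positivity) h5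
          exact ⟨_, h6⟩
        exact hT.2 a ha' b hb' this
  have h2 : T.card = S.card + (T \ S).card := by
    rw [Finset.card_sdiff_of_subset hST]
    have := Finset.card_le_card hST
    omega
  omega

/-- play on to the end -/
lemma play_to_end {n : ℕ} {W : Finset ℕ → Prop} (hW : Win n W) :
    ∀ (d : ℕ) (S : Finset ℕ), W S → Prim n S → n ≤ S.card + d →
      ∃ T, S ⊆ T ∧ W T ∧ Prim n T ∧ Terminal n T := by
  intro d
  induction d with
  | zero =>
    intro S hS hP hd
    have h1 : S.card ≤ (Finset.Icc 2 n).card := Finset.card_le_card hP.1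
    by_cases hn : n = 0
    · subst hn
      refine ⟨S, subset_rfl, hS, hP, ?_⟩
      intro x hx
      simp at hx
    · rw [Nat.card_Icc] at h1
      omega
  | succ d ih =>
    intro S hS hP hd
    by_cases hT : Terminal n S
    · exact ⟨S, subset_rfl, hS, hP, hT⟩
    · have hleg := (not_terminal_iff n S).1 hT
      have : ∃ x, Legal n S x ∧ W (insert x S) := by
        by_cases he : Even S.card
        · exact hW.even S hS he hleg
        · obtain ⟨x, hx⟩ := hleg
          exact ⟨x, hx, hW.odd S hS he x hx⟩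
      obtain ⟨x, hx, hWx⟩ := this
      obtain ⟨T, h1, h2, h3, h4⟩ := ih (insert x S) hWx (hP.insert hx) (by
        rw [Finset.card_insert_of_notMem hx.notMem]; omega)
      exact ⟨T, (Finset.subset_insert x S).trans h1, h2, h3, h4⟩

/-- A level. -/
structure Level (q : ℕ) where
  X : Finset ℕ
  y : ℕ
  odd : ∀ x ∈ X, Odd x
  two_le : ∀ x ∈ X, 2 ≤ x
  le : ∀ x ∈ X, x ≤ 2 * q
  uniq : ∀ a, 0 < a → a ≤ 2 * q → ∀ x ∈ X, ∀ x' ∈ X, x ∣ a → x' ∣ a → x = x'
  mult : ∀ x ∈ X, ((Finset.Ioc q (2 * q)).filter (fun m => x ∣ m)).card ≤ y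

noncomputable def Level.E {q : ℕ} (ℓ : Level q) : Finset ℕ := by
  classical
  exact (Finset.Ioc q (2 * q)).filter (fun m => ∃ x ∈ ℓ.X, x ∣ m)

/-- One round of Shortener's attack. -/
lemma round {q : ℕ} {W : Finset ℕ → Prop} (hW : Win (2 * q) W) (ℓ : Level q) (S : Finset ℕ)
    (hS : W S) (hP : Prim (2 * q) S) (he : Even S.card) :
    (∃ S', W S' ∧ Prim (2 * q) S' ∧ Terminal (2 * q) S' ∧ S'.card ≤ S.card + 1) ∨
    (∃ S2, W S2 ∧ Prim (2 * q) S2 ∧ S ⊆ S2 ∧ S2.card = S.card + 2 ∧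
      (((U q S2 ∩ ℓ.E).card : ℤ) - ((S.card : ℤ) + 1) * ℓ.y ≤
        (ℓ.X.card : ℤ) * (((U q S).card : ℤ) - (U q S2).card))) := by
  classical
  by_cases hT : Terminal (2 * q) S
  · exact Or.inl ⟨S, hS, hP, hT, by omega⟩
  obtain ⟨x, hx, hWx⟩ := hW.even S hS he ((not_terminal_iff _ S).1 hT)
  set S1 := insert x S with hS1
  have hP1 : Prim (2 * q) S1 := hP.insert hx
  have hc1 : S1.card = S.card + 1 := Finset.card_insert_of_notMem hx.notMem
  have hodd1 : ¬ Even S1.card := by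
    rw [hc1]; intro h
    rw [Nat.even_add_one] at h; exact h he
  by_cases hT1 : Terminal (2 * q) S1
  · exact Or.inl ⟨S1, hWx, hP1, hT1, by omega⟩
  right
  -- unblocked elements
  set unb := ℓ.X.filter (fun x => ∀ c ∈ S1, ¬ x ∣ c) with hunb
  set blk := ℓ.X.filter (fun x => ¬ ∀ c ∈ S1, ¬ x ∣ c) with hblk
  have hblkcard : blk.card ≤ S1.card := by
    -- choose for each blocked x a multiple c in S1; injective by uniq
    have hch : ∀ z ∈ blk, ∃ c ∈ S1, z ∣ c := by
      intro z hz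
      have := (Finset.mem_filter.1 hz).2
      push Not at this
      exact this
    choose! f hf using hch
    apply Finset.card_le_card_of_injOn f
    · intro z hz
      exact (hf z hz).1
    · intro z hz z' hz' hzz
      have h1 := hf z hz
      have h2 := hf z' hz'
      have hzX := (Finset.mem_filter.1 hz).1
      have hzX' := (Finset.mem_filter.1 hz').1
      have hcI := Finset.mem_Icc.1 (hP1.1 h1.1)
      apply ℓ.uniq (f z) (by omega) hcI.2 z hzX z' hzX' h1.2
      have : f z = f z' := hzz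
      rw [this]; exact h2.2
  -- weight function
  set wt : ℕ → ℕ := fun z => ((U q S1).filter (fun m => z ∣ m)).card with hwt
  have hwt_le : ∀ z ∈ ℓ.X, wt z ≤ ℓ.y := by
    intro z hz
    refine le_trans (Finset.card_le_card ?_) (ℓ.mult z hz)
    intro m hm
    rw [Finset.mem_filter, mem_U] at hm
    rw [Finset.mem_filter, Finset.mem_Ioc]
    exact ⟨hm.1.1, hm.2⟩
  have hsum : (U q S1 ∩ ℓ.E).card ≤ ∑ z ∈ ℓ.X, wt z := by
    have : U q S1 ∩ ℓ.E ⊆ ℓ.X.biUnion (fun z => (U q S1).filter (fun m => z ∣ m)) := by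
      intro m hm
      rw [Finset.mem_inter] at hm
      have h2 := hm.2
      unfold Level.E at h2
      rw [Finset.mem_filter] at h2
      obtain ⟨z, hz, hzm⟩ := h2.2
      rw [Finset.mem_biUnion]
      exact ⟨z, hz, Finset.mem_filter.2 ⟨hm.1, hzm⟩⟩
    exact (Finset.card_le_card this).trans Finset.card_biUnion_le
  have hsplit : ∑ z ∈ ℓ.X, wt z = ∑ z ∈ unb, wt z + ∑ z ∈ blk, wt z := by
    rw [hunb, hblk, Finset.sum_filter_add_sum_filter_not]
  have hblksum : ∑ z ∈ blk, wt z ≤ S1.card * ℓ.y := by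
    calc ∑ z ∈ blk, wt z ≤ ∑ z ∈ blk, ℓ.y :=
          Finset.sum_le_sum (fun z hz => hwt_le z (Finset.mem_filter.1 hz).1)
      _ = blk.card * ℓ.y := by rw [Finset.sum_const, smul_eq_mul]
      _ ≤ S1.card * ℓ.y := Nat.mul_le_mul_right _ hblkcard
  -- key claim: there is a legal move z with card X * wt z >= sum over unb
  have key : ∃ z, Legal (2 * q) S1 z ∧ ∑ z ∈ unb, wt z ≤ ℓ.X.card * wt z ∧
      (∑ z ∈ unb, wt z = 0 ∨ Odd z) := by
    by_cases h0 : ∑ z ∈ unb, wt z = 0
    · obtain ⟨z, hz⟩ := (not_terminal_iff _ S1).1 hT1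
      exact ⟨z, hz, by omega, Or.inl h0⟩
    · have hne : unb.Nonempty := by
        rw [Finset.nonempty_iff_ne_empty]
        intro h
        rw [h] at h0
        simp at h0
      obtain ⟨z, hz, hmax⟩ := Finset.exists_max_image unb wt hne
      have hle : ∑ z ∈ unb, wt z ≤ unb.card * wt z := by
        calc ∑ z ∈ unb, wt z ≤ ∑ _z ∈ unb, wt z := Finset.sum_le_sum (fun a ha => hmax a ha)
          _ = unb.card * wt z := by rw [Finset.sum_const, smul_eq_mul]
      have hcard : unb.card ≤ ℓ.X.card := Finset.card_le_card (Finset.filter_subset _ _)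
      have hwz : wt z ≠ 0 := by
        intro h
        rw [h] at hle
        omega
      have hzX := (Finset.mem_filter.1 hz).1
      refine ⟨z, ⟨Finset.mem_Icc.2 ⟨ℓ.two_le z hzX, ℓ.le z hzX⟩, ?_⟩,
        hle.trans (Nat.mul_le_mul_right _ hcard), Or.inr (ℓ.odd z hzX)⟩
      intro c hc
      refine ⟨(Finset.mem_filter.1 hz).2 c hc, ?_⟩
      intro hcz
      -- survivor multiple
      have hpos : 0 < wt z := Nat.pos_of_ne_zero hwz
      obtain ⟨m, hm⟩ := Finset.card_pos.1 hpos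
      rw [Finset.mem_filter, mem_U] at hm
      have hoddc : Odd c := Odd.of_dvd_nat (ℓ.odd z hzX) hcz
      exact hm.1.2 c hc hoddc (hcz.trans hm.2)
  obtain ⟨z, hzleg, hzle, hzodd⟩ := key
  set S2 := insert z S1 with hS2
  have hc2 : S2.card = S.card + 2 := by
    rw [hS2, Finset.card_insert_of_notMem hzleg.notMem, hc1]
  have hsub12 : S1 ⊆ S2 := Finset.subset_insert _ _
  have hsub01 : S ⊆ S1 := Finset.subset_insert _ _
  refine ⟨S2, hW.odd S1 hWx hodd1 z hzleg, hP1.insert hzleg, hsub01.trans hsub12, hc2, ?_⟩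
  have hU12 : U q S2 ⊆ U q S1 := U_anti hsub12
  have hU01 : U q S1 ⊆ U q S := U_anti hsub01
  have hUc12 := Finset.card_le_card hU12
  have hUc01 := Finset.card_le_card hU01
  have hdrop : (∑ z ∈ unb, wt z : ℤ) ≤ (ℓ.X.card : ℤ) * (((U q S1).card : ℤ) - (U q S2).card) := by
    rcases hzodd with h0 | hodd
    · have h0' : ((∑ z ∈ unb, wt z : ℕ) : ℤ) = 0 := by exact_mod_cast h0
      push_cast at h0'
      rw [h0']
      have : (0:ℤ) ≤ ((U q S1).card : ℤ) - (U q S2).card := by
        have : ((U q S2).card : ℤ) ≤ (U q S1).card := by exact_mod_cast hUc12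
        linarith
      positivity
    · have h3 : (U q S2).card + wt z ≤ (U q S1).card := by
        have hdisj : Disjoint (U q S2) ((U q S1).filter (fun m => z ∣ m)) := by
          rw [Finset.disjoint_left]
          intro m hm hm'
          rw [mem_U] at hm
          rw [Finset.mem_filter] at hm'
          exact hm.2 z (Finset.mem_insert_self _ _) hodd hm'.2
        rw [hwt, ← Finset.card_union_of_disjoint hdisj]
        exact Finset.card_le_card (Finset.union_subset hU12 (Finset.filter_subset _ _))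
      have h4 : ((∑ z ∈ unb, wt z : ℕ) : ℤ) ≤ (ℓ.X.card : ℤ) * (wt z : ℤ) := by exact_mod_cast hzle
      push_cast at h4
      have h5 : (wt z : ℤ) ≤ ((U q S1).card : ℤ) - (U q S2).card := by
        have : ((U q S2).card : ℤ) + wt z ≤ (U q S1).card := by exact_mod_cast h3
        linarith
      calc (∑ z ∈ unb, wt z : ℤ) ≤ (ℓ.X.card : ℤ) * (wt z : ℤ) := h4
        _ ≤ _ := by gcongr
  have hE : (U q S2 ∩ ℓ.E).card ≤ (U q S1 ∩ ℓ.E).card :=
    Finset.card_le_card (Finset.inter_subset_inter_right hU12)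
  have hfin : ((U q S1 ∩ ℓ.E).card : ℤ) ≤ (∑ z ∈ unb, wt z : ℤ) + ((S.card : ℤ) + 1) * ℓ.y := by
    have : (U q S1 ∩ ℓ.E).card ≤ ∑ z ∈ unb, wt z + (S.card + 1) * ℓ.y := by
      rw [← hc1]; omega
    exact_mod_cast this
  have hmono : (ℓ.X.card : ℤ) * (((U q S1).card : ℤ) - (U q S2).card) ≤
      (ℓ.X.card : ℤ) * (((U q S).card : ℤ) - (U q S2).card) := by
    gcongr
  have hE' : ((U q S2 ∩ ℓ.E).card : ℤ) ≤ (U q S1 ∩ ℓ.E).card := by exact_mod_cast hE
  linarith

lemma rounds {q : ℕ} {W : Finset ℕ → Prop} (hW : Win (2 * q) W) (ℓ : Level q) (t : ℕ) :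
    ∀ (M : ℕ) (S : Finset ℕ), W S → Prim (2 * q) S → Even S.card → S.card + 2 * M ≤ t →
    (∃ S', W S' ∧ Prim (2 * q) S' ∧ Terminal (2 * q) S' ∧ S'.card ≤ t) ∨
    (∃ S2, W S2 ∧ Prim (2 * q) S2 ∧ S ⊆ S2 ∧ S2.card = S.card + 2 * M ∧
      ((M : ℤ) * (((U q S2 ∩ ℓ.E).card : ℤ) - (t : ℤ) * ℓ.y) ≤
        (ℓ.X.card : ℤ) * (((U q S).card : ℤ) - (U q S2).card))) := by
  intro M
  induction M with
  | zero =>
    intro S hS hP he ht
    right
    exact ⟨S, hS, hP, subset_rfl, by omega, by simp⟩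
  | succ M ih =>
    intro S hS hP he ht
    rcases round hW ℓ S hS hP he with ⟨S', h1, h2, h3, h4⟩ | ⟨S1, h1, h2, h3, h4, h5⟩
    · left
      exact ⟨S', h1, h2, h3, by omega⟩
    · rcases ih S1 h1 h2 (by rw [h4]; exact he.add (by decide)) (by omega) with
        h | ⟨S2, g1, g2, g3, g4, g5⟩
      · exact Or.inl h
      · right
        refine ⟨S2, g1, g2, h3.trans g3, by omega, ?_⟩
        have hE : ((U q S2 ∩ ℓ.E).card : ℤ) ≤ (U q S1 ∩ ℓ.E).card := by
          exact_mod_cast Finset.card_le_card (Finset.inter_subset_inter_right (U_anti g3))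
        have hty : ((S.card : ℤ) + 1) * ℓ.y ≤ (t : ℤ) * ℓ.y := by
          have : ((S.card : ℤ) + 1) ≤ t := by
            have : S.card + 1 ≤ t := by omega
            exact_mod_cast this
          gcongr
        have : ((M + 1 : ℕ) : ℤ) * (((U q S2 ∩ ℓ.E).card : ℤ) - (t : ℤ) * ℓ.y) =
            (M : ℤ) * (((U q S2 ∩ ℓ.E).card : ℤ) - (t : ℤ) * ℓ.y) +
            (((U q S2 ∩ ℓ.E).card : ℤ) - (t : ℤ) * ℓ.y) := by push_cast; ring
        rw [this]
        have h6 : (ℓ.X.card : ℤ) * (((U q S).card : ℤ) - (U q S2).card) =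
          (ℓ.X.card : ℤ) * (((U q S).card : ℤ) - (U q S1).card) +
          (ℓ.X.card : ℤ) * (((U q S1).card : ℤ) - (U q S2).card) := by ring
        rw [h6]
        linarith

lemma levels {q : ℕ} {W : Finset ℕ → Prop} (hW : Win (2 * q) W) (lev : ℕ → Level q)
    (h : ℕ) (Mv tv : ℕ → ℕ) (T : ℕ) :
    ∀ d : ℕ, (∀ i < d, (lev i).X.card = h * Mv i) → (∀ i < d, 0 < Mv i) →
      (∀ i < d, 2 * ∑ k ∈ Finset.range (i + 1), Mv k ≤ tv i) → (∀ i < d, tv i ≤ T) →
    (∃ S', W S' ∧ Prim (2 * q) S' ∧ Terminal (2 * q) S' ∧ S'.card ≤ T) ∨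
    (∃ S, W S ∧ Prim (2 * q) S ∧ S.card = 2 * ∑ k ∈ Finset.range d, Mv k ∧
      (∑ i ∈ Finset.range d, (((U q S ∩ (lev i).E).card : ℤ) - (tv i : ℤ) * (lev i).y) ≤
        (h : ℤ) * (((U q ∅).card : ℤ) - (U q S).card))) := by
  intro d
  induction d with
  | zero =>
    intro _ _ _ _
    right
    exact ⟨∅, hW.empty, prim_empty _, by simp, by simp⟩
  | succ d ih =>
    intro h1 h2 h3 h4
    rcases ih (fun i hi => h1 i (by omega)) (fun i hi => h2 i (by omega))
      (fun i hi => h3 i (by omega)) (fun i hi => h4 i (by omega)) with hT | ⟨S, g1, g2, g3, g4⟩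
    · exact Or.inl hT
    · have hd := h3 d (by omega)
      rw [Finset.sum_range_succ] at hd
      rcases rounds hW (lev d) (tv d) (Mv d) S g1 g2 (by rw [g3]; exact even_two_mul _)
        (by rw [g3]; linarith) with ⟨S', k1, k2, k3, k4⟩ | ⟨S2, k1, k2, k3, k4, k5⟩
      · left
        exact ⟨S', k1, k2, k3, k4.trans (h4 d (by omega))⟩
      · right
        refine ⟨S2, k1, k2, ?_, ?_⟩
        · rw [k4, g3, Finset.sum_range_succ]; ring
        · rw [Finset.sum_range_succ]
          have hsum : ∑ i ∈ Finset.range d, (((U q S2 ∩ (lev i).E).card : ℤ) - (tv i : ℤ) * (lev i).y)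
              ≤ ∑ i ∈ Finset.range d, (((U q S ∩ (lev i).E).card : ℤ) - (tv i : ℤ) * (lev i).y) := by
            apply Finset.sum_le_sum
            intro i _
            have : ((U q S2 ∩ (lev i).E).card : ℤ) ≤ (U q S ∩ (lev i).E).card := by
              exact_mod_cast Finset.card_le_card (Finset.inter_subset_inter_right (U_anti k3))
            linarith
          have hM : (0 : ℤ) < Mv d := by exact_mod_cast h2 d (by omega)
          have hX : ((lev d).X.card : ℤ) = (h : ℤ) * Mv d := by exact_mod_cast h1 d (by omega)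
          rw [hX] at k5
          have k6 : ((U q S2 ∩ (lev d).E).card : ℤ) - (tv d : ℤ) * (lev d).y ≤
              (h : ℤ) * (((U q S).card : ℤ) - (U q S2).card) := by
            have : (Mv d : ℤ) * (((U q S2 ∩ (lev d).E).card : ℤ) - (tv d : ℤ) * (lev d).y) ≤
              (Mv d : ℤ) * ((h : ℤ) * (((U q S).card : ℤ) - (U q S2).card)) := by
              calc _ ≤ _ := k5
                _ = _ := by ring
            exact le_of_mul_le_mul_left this hM
          have h7 : (h : ℤ) * (((U q ∅).card : ℤ) - (U q S2).card) =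
            (h : ℤ) * (((U q ∅).card : ℤ) - (U q S).card) +
            (h : ℤ) * (((U q S).card : ℤ) - (U q S2).card) := by ring
          rw [h7]
          linarith

lemma U_empty_card (q : ℕ) : (U q ∅).card = q := by
  have : U q ∅ = Finset.Ioc q (2 * q) := by
    ext m
    rw [mem_U, Finset.mem_Ioc]
    simp
  rw [this, Nat.card_Ioc]
  omega

/-- Conclusion of the game part: there is a terminal winning position of small size. -/
lemma game_conclusion {q : ℕ} {W : Finset ℕ → Prop} (hW : Win (2 * q) W) (lev : ℕ → Level q)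
    (h : ℕ) (Mv tv : ℕ → ℕ) (T : ℕ) (d : ℕ)
    (h1 : ∀ i < d, (lev i).X.card = h * Mv i) (h2 : ∀ i < d, 0 < Mv i)
    (h3 : ∀ i < d, 2 * ∑ k ∈ Finset.range (i + 1), Mv k ≤ tv i) (h4 : ∀ i < d, tv i ≤ T)
    (h5 : 2 * ∑ k ∈ Finset.range d, Mv k ≤ T) :
    ∃ S' V : Finset ℕ, W S' ∧ Terminal (2 * q) S' ∧ V ⊆ Finset.Ioc q (2 * q) ∧
      S'.card ≤ T + V.card ∧
      (∑ i ∈ Finset.range d, ((V ∩ (lev i).E).card : ℤ) ≤
        (h : ℤ) * q + ∑ i ∈ Finset.range d, (tv i : ℤ) * (lev i).y) := by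
  rcases levels hW lev h Mv tv T d h1 h2 h3 h4 with ⟨S', k1, k2, k3, k4⟩ | ⟨S, g1, g2, g3, g4⟩
  · refine ⟨S', ∅, k1, k3, by simp, by simpa using k4, ?_⟩
    simp only [Finset.empty_inter, Finset.card_empty, Nat.cast_zero, Finset.sum_const_zero]
    positivity
  · obtain ⟨T', e1, e2, e3, e4⟩ := play_to_end hW (2 * q) S g1 g2 (by omega)
    refine ⟨T', U q S, e2, e4, ?_, ?_, ?_⟩
    · intro m hm
      rw [mem_U] at hm
      exact Finset.mem_Ioc.2 hm.1
    · have := final_count e1 e3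
      omega
    · rw [Finset.sum_sub_distrib, U_empty_card] at g4
      have : (0:ℤ) ≤ (h:ℤ) * (U q S).card := by positivity
      have h6 : (h : ℤ) * ((q : ℤ) - (U q S).card) = (h:ℤ) * q - (h:ℤ) * (U q S).card := by ring
      rw [h6] at g4
      linarith

end Pool.Agent.Helper755.PrimGame
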