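import Mathlib

set_option autoImplicit false

namespace Pool.Agent.Helper755.PrimNT

open Finset

def PP (P : Finset ℕ) : ℕ := ∏ p ∈ P, p

def part (P : Finset ℕ) (m : ℕ) : ℕ := ∏ p ∈ P, p ^ (m.factorization p)

def IsNum (P : Finset ℕ) (b : ℕ) : Prop := b ≠ 0 ∧ ∀ p, p.Prime → p ∣ b → p ∈ P

lemma part_pos {P : Finset ℕ} (hP : ∀ p ∈ P, p.Prime) (m : ℕ) : 0 < part P m :=
  Finset.prod_pos (fun p hp => pow_pos (hP p hp).pos _)

lemma PP_pos {P : Finset ℕ} (hP : ∀ p ∈ P, p.Prime) : 0 < PP P :=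
  Finset.prod_pos (fun p hp => (hP p hp).pos)

lemma part_isNum {P : Finset ℕ} (hP : ∀ p ∈ P, p.Prime) (m : ℕ) : IsNum P (part P m) := by
  refine ⟨(part_pos hP m).ne', ?_⟩
  intro r hr hdvd
  unfold part at hdvd
  rw [hr.prime.dvd_finsetProd_iff] at hdvd
  obtain ⟨p, hp, hrp⟩ := hdvd
  have := hr.dvd_of_dvd_pow hrp
  rw [(Nat.prime_dvd_prime_iff_eq hr (hP p hp)).1 this]
  exact hp

lemma part_fact {P : Finset ℕ} (hP : ∀ p ∈ P, p.Prime) (m r : ℕ) :
    (part P m).factorization r = if r ∈ P then m.factorization r else 0 := by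
  classical
  unfold part
  rw [Nat.factorization_prod (fun p hp => (pow_pos (hP p hp).pos _).ne')]
  rw [Finset.sum_apply']
  have : ∀ p ∈ P, (p ^ (m.factorization p)).factorization r =
      if p = r then m.factorization r else 0 := by
    intro p hp
    rw [(hP p hp).factorization_pow, Finsupp.single_apply]
    split_ifs with h
    · rw [h]
    · rfl
  rw [Finset.sum_congr rfl this, Finset.sum_ite_eq']

lemma part_dvd {P : Finset ℕ} (hP : ∀ p ∈ P, p.Prime) {m : ℕ} (hm : m ≠ 0) : part P m ∣ m := by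
  rw [← Nat.factorization_le_iff_dvd (part_pos hP m).ne' hm]
  intro r
  rw [part_fact hP]
  split_ifs
  · exact le_rfl
  · exact Nat.zero_le _

lemma part_of_isNum {P : Finset ℕ} (hP : ∀ p ∈ P, p.Prime) {b : ℕ} (hb : IsNum P b) :
    part P b = b := by
  apply Nat.eq_of_factorization_eq (part_pos hP b).ne' hb.1
  intro r
  rw [part_fact hP]
  split_ifs with h
  · rfl
  · symm
    by_cases hr : r.Prime
    · apply Nat.factorization_eq_zero_of_not_dvd
      intro hd
      exact h (hb.2 r hr hd)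
    · exact Nat.factorization_eq_zero_of_not_prime _ hr

lemma part_mul {P : Finset ℕ} {b x : ℕ} (hb : b ≠ 0) (hx : x ≠ 0) :
    part P (b * x) = part P b * part P x := by
  unfold part
  rw [← Finset.prod_mul_distrib]
  apply Finset.prod_congr rfl
  intro p _
  rw [Nat.factorization_mul hb hx, Finsupp.add_apply, pow_add]

lemma part_of_coprime {P : Finset ℕ} {x : ℕ} (hx : Nat.Coprime (PP P) x) (hP : ∀ p ∈ P, p.Prime) :
    part P x = 1 := by
  unfold part
  apply Finset.prod_eq_one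
  intro p hp
  have : ¬ p ∣ x := by
    intro hd
    have h1 : p ∣ PP P := Finset.dvd_prod_of_mem _ hp
    have h2 := Nat.dvd_gcd h1 hd
    rw [Nat.Coprime] at hx
    rw [hx] at h2
    exact (hP p hp).one_lt.ne' (Nat.dvd_one.1 h2)
  rw [Nat.factorization_eq_zero_of_not_dvd this, pow_zero]

lemma coprime_div_part {P : Finset ℕ} (hP : ∀ p ∈ P, p.Prime) {m : ℕ} (hm : m ≠ 0) :
    Nat.Coprime (PP P) (m / part P m) := by
  unfold PP
  apply Nat.Coprime.prod_left
  intro p hp
  rw [(hP p hp).coprime_iff_not_dvd]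
  intro hd
  have hne : m / part P m ≠ 0 := by
    have := Nat.div_pos (Nat.le_of_dvd (Nat.pos_of_ne_zero hm) (part_dvd hP hm)) (part_pos hP m)
    omega
  have h1 := (hP p hp).factorization_pos_of_dvd hne hd
  rw [Nat.factorization_div (part_dvd hP hm)] at h1
  rw [Finsupp.tsub_apply, part_fact hP, if_pos hp] at h1
  omega

lemma part_eq_iff {P : Finset ℕ} (hP : ∀ p ∈ P, p.Prime) {m b : ℕ} (hm : m ≠ 0) (hb : IsNum P b) :
    part P m = b ↔ ∃ x, m = b * x ∧ Nat.Coprime (PP P) x := by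
  constructor
  · intro h
    refine ⟨m / b, ?_, ?_⟩
    · rw [← h]; exact (Nat.mul_div_cancel' (part_dvd hP hm)).symm
    · rw [← h]; exact coprime_div_part hP hm
  · rintro ⟨x, rfl, hx⟩
    have hx0 : x ≠ 0 := by
      rintro rfl; simp at hm
    rw [part_mul hb.1 hx0, part_of_isNum hP hb, part_of_coprime hx hP, mul_one]

lemma count_coprime (a : ℕ) (s t : ℕ) :
    ((Finset.Ioc s (s + a * t)).filter (fun x => Nat.Coprime a x)).card = a.totient * t := by
  induction t with
  | zero => simp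
  | succ t ih =>
    have h1 : Finset.Ioc s (s + a * (t + 1)) =
        Finset.Ioc s (s + a * t) ∪ Finset.Ioc (s + a * t) (s + a * t + a) := by
      rw [Finset.Ioc_union_Ioc_eq_Ioc (by omega) (by omega)]
      congr 1
      ring
    have h2 : Disjoint (Finset.Ioc s (s + a * t)) (Finset.Ioc (s + a * t) (s + a * t + a)) := by
      rw [Finset.disjoint_left]
      intro x hx hx'
      rw [Finset.mem_Ioc] at hx hx'
      omega
    rw [h1, Finset.filter_union, Finset.card_union_of_disjoint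
      (Finset.disjoint_filter_filter h2), ih]
    have h3 : Finset.Ioc (s + a * t) (s + a * t + a) =
        Finset.Ico (s + a * t + 1) (s + a * t + 1 + a) := by
      ext x
      rw [Finset.mem_Ioc, Finset.mem_Ico]
      omega
    rw [h3, Nat.filter_coprime_Ico_eq_totient]
    ring

noncomputable def rho (P : Finset ℕ) : ℝ := (Nat.totient (PP P) : ℝ) / (PP P : ℝ)

/-- exact count of elements with a given part -/
lemma count_part {P : Finset ℕ} (hP : ∀ p ∈ P, p.Prime) {b q : ℕ} (hb : IsNum P b)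
    (hq : b * PP P ∣ q) :
    (((Finset.Ioc q (2 * q)).filter (fun m => part P m = b)).card : ℝ) = q * rho P / b := by
  obtain ⟨t, rfl⟩ := hq
  have hbpos : 0 < b := Nat.pos_of_ne_zero hb.1
  have hPpos := PP_pos hP
  have hcard : ((Finset.Ioc (b * PP P * t) (2 * (b * PP P * t))).filter
      (fun m => part P m = b)).card =
      ((Finset.Ioc (PP P * t) (PP P * t + PP P * t)).filter
        (fun x => Nat.Coprime (PP P) x)).card := by
    symm
    apply Finset.card_bij (fun x _ => b * x)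
    · intro x hx
      rw [Finset.mem_filter, Finset.mem_Ioc] at hx ⊢
      have hx1 : 0 < x := by omega
      refine ⟨⟨?_, ?_⟩, ?_⟩
      · have := Nat.mul_lt_mul_of_pos_left hx.1.1 hbpos
        calc b * PP P * t = b * (PP P * t) := by ring
          _ < b * x := this
      · have := Nat.mul_le_mul_left b hx.1.2
        calc b * x ≤ b * (PP P * t + PP P * t) := this
          _ = 2 * (b * PP P * t) := by ring
      · rw [part_eq_iff hP (by positivity) hb]
        exact ⟨x, rfl, hx.2⟩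
    · intro x _ y _ hxy
      exact Nat.eq_of_mul_eq_mul_left hbpos hxy
    · intro m hm
      rw [Finset.mem_filter, Finset.mem_Ioc] at hm
      have hm0 : m ≠ 0 := by
        have := hm.1.1
        omega
      obtain ⟨x, rfl, hx⟩ := (part_eq_iff hP hm0 hb).1 hm.2
      refine ⟨x, ?_, rfl⟩
      rw [Finset.mem_filter, Finset.mem_Ioc]
      refine ⟨⟨?_, ?_⟩, hx⟩
      · have h1 : b * (PP P * t) < b * x := by
          calc b * (PP P * t) = b * PP P * t := by ring
            _ < b * x := hm.1.1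
        exact Nat.lt_of_mul_lt_mul_left h1
      · have h1 : b * x ≤ b * (PP P * t + PP P * t) := by
          calc b * x ≤ 2 * (b * PP P * t) := hm.1.2
            _ = b * (PP P * t + PP P * t) := by ring
        exact Nat.le_of_mul_le_mul_left h1 hbpos
  rw [hcard, count_coprime]
  unfold rho
  have h1 : (b : ℝ) ≠ 0 := by exact_mod_cast hb.1
  have h2 : (PP P : ℝ) ≠ 0 := by exact_mod_cast hPpos.ne'
  push_cast
  field_simp

lemma PP_union {P Q : Finset ℕ} (hd : Disjoint P Q) : PP (P ∪ Q) = PP P * PP Q := by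
  unfold PP
  rw [Finset.prod_union hd]

lemma coprime_PP {P Q : Finset ℕ} (hP : ∀ p ∈ P, p.Prime) (hQ : ∀ p ∈ Q, p.Prime)
    (hd : Disjoint P Q) : Nat.Coprime (PP P) (PP Q) := by
  unfold PP
  apply Nat.Coprime.prod_left
  intro p hp
  apply Nat.Coprime.prod_right
  intro r hr
  rw [Nat.coprime_primes (hP p hp) (hQ r hr)]
  rintro rfl
  exact (Finset.disjoint_left.1 hd) hp hr

lemma rho_union {P Q : Finset ℕ} (hP : ∀ p ∈ P, p.Prime) (hQ : ∀ p ∈ Q, p.Prime)
    (hd : Disjoint P Q) : rho (P ∪ Q) = rho P * rho Q := by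
  unfold rho
  rw [PP_union hd, Nat.totient_mul (coprime_PP hP hQ hd)]
  push_cast
  rw [mul_div_mul_comm]

lemma part_union {P Q : Finset ℕ} (hd : Disjoint P Q) (m : ℕ) :
    part (P ∪ Q) m = part P m * part Q m := by
  unfold part
  rw [Finset.prod_union hd]

lemma IsNum.mul {P Q : Finset ℕ} {b c : ℕ} (hb : IsNum P b) (hc : IsNum Q c) :
    IsNum (P ∪ Q) (b * c) := by
  refine ⟨Nat.mul_ne_zero hb.1 hc.1, ?_⟩
  intro p hp hd
  rw [Finset.mem_union]
  rcases (hp.dvd_mul).1 hd with h | h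
  · exact Or.inl (hb.2 p hp h)
  · exact Or.inr (hc.2 p hp h)

lemma IsNum.coprime {P Q : Finset ℕ} {b : ℕ} (hP : ∀ p ∈ P, p.Prime)
    (hd : Disjoint P Q) (hb : IsNum Q b) : Nat.Coprime (PP P) b := by
  unfold PP
  apply Nat.Coprime.prod_left
  intro p hp
  rw [(hP p hp).coprime_iff_not_dvd]
  intro h
  exact Finset.disjoint_left.1 hd hp (hb.2 p (hP p hp) h)

lemma part_joint {P Q : Finset ℕ} (hP : ∀ p ∈ P, p.Prime) (hQ : ∀ p ∈ Q, p.Prime)
    (hd : Disjoint P Q) {b c m : ℕ} (hb : IsNum P b) (hc : IsNum Q c) (hm : m ≠ 0) :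
    (part P m = b ∧ part Q m = c) ↔ part (P ∪ Q) m = b * c := by
  constructor
  · rintro ⟨h1, h2⟩
    rw [part_union hd, h1, h2]
  · intro h
    have hPQ : ∀ p ∈ P ∪ Q, p.Prime := by
      intro p hp
      rcases Finset.mem_union.1 hp with h | h
      · exact hP p h
      · exact hQ p h
    obtain ⟨x, hx, hcop⟩ := (part_eq_iff hPQ hm (hb.mul hc)).1 h
    rw [PP_union hd] at hcop
    have hcopP : Nat.Coprime (PP P) x := hcop.coprime_mul_right
    have hcopQ : Nat.Coprime (PP Q) x := hcop.coprime_mul_left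
    constructor
    · rw [part_eq_iff hP hm hb]
      refine ⟨c * x, by rw [hx]; ring, ?_⟩
      exact Nat.Coprime.mul_right (hc.coprime hP hd) hcopP
    · rw [part_eq_iff hQ hm hc]
      refine ⟨b * x, by rw [hx]; ring, ?_⟩
      exact Nat.Coprime.mul_right (hb.coprime hQ hd.symm) hcopQ

/-- numbers up to T supported on P -/
noncomputable def BB (P : Finset ℕ) (T : ℕ) : Finset ℕ := by
  classical
  exact (Finset.Icc 1 T).filter (fun b => IsNum P b)

lemma mem_BB {P : Finset ℕ} {T b : ℕ} : b ∈ BB P T ↔ (1 ≤ b ∧ b ≤ T) ∧ IsNum P b := by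
  classical
  simp [BB]

/-- the event that the P-part is at most T -/
def GG (P : Finset ℕ) (T q : ℕ) : Finset ℕ :=
  (Finset.Ioc q (2 * q)).filter (fun m => part P m ≤ T)

noncomputable def gg (P : Finset ℕ) (T : ℕ) : ℝ := rho P * ∑ b ∈ BB P T, (1 : ℝ) / b

lemma card_GG {P : Finset ℕ} (hP : ∀ p ∈ P, p.Prime) {T q : ℕ}
    (hq : ∀ b, 1 ≤ b → b ≤ T → b * PP P ∣ q) :
    ((GG P T q).card : ℝ) = q * gg P T := by
  classical
  have h1 : (GG P T q).card = ∑ b ∈ BB P T, ((GG P T q).filter (fun m => part P m = b)).card := by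
    apply Finset.card_eq_sum_card_fiberwise
    intro m hm
    have hm' := (Finset.mem_filter.1 hm).2
    have : part P m ∈ BB P T := by
      rw [mem_BB]
      exact ⟨⟨part_pos hP m, hm'⟩, part_isNum hP m⟩
    exact_mod_cast this
  rw [h1]
  push_cast
  unfold gg
  rw [Finset.mul_sum, Finset.mul_sum]
  apply Finset.sum_congr rfl
  intro b hb
  rw [mem_BB] at hb
  have h2 : (GG P T q).filter (fun m => part P m = b) =
      (Finset.Ioc q (2 * q)).filter (fun m => part P m = b) := by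
    ext m
    simp only [GG, Finset.mem_filter]
    constructor
    · rintro ⟨⟨h, _⟩, h'⟩
      exact ⟨h, h'⟩
    · rintro ⟨h, h'⟩
      exact ⟨⟨h, by rw [h']; exact hb.1.2⟩, h'⟩
  rw [h2, count_part hP hb.2 (hq b hb.1.1 hb.1.2)]
  ring

lemma card_GG_inter {P Q : Finset ℕ} (hP : ∀ p ∈ P, p.Prime) (hQ : ∀ p ∈ Q, p.Prime)
    (hd : Disjoint P Q) {T T' q : ℕ}
    (hq : ∀ b c, 1 ≤ b → b ≤ T → 1 ≤ c → c ≤ T' → b * c * (PP P * PP Q) ∣ q) :
    ((GG P T q ∩ GG Q T' q).card : ℝ) = q * (gg P T * gg Q T') := by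
  classical
  have hPQ : ∀ p ∈ P ∪ Q, p.Prime := by
    intro p hp
    rcases Finset.mem_union.1 hp with h | h
    · exact hP p h
    · exact hQ p h
  have h1 : (GG P T q ∩ GG Q T' q).card = ∑ bc ∈ BB P T ×ˢ BB Q T',
      ((GG P T q ∩ GG Q T' q).filter (fun m => (part P m, part Q m) = bc)).card := by
    apply Finset.card_eq_sum_card_fiberwise
    intro m hm
    have hm' := Finset.mem_inter.1 hm
    have h1 := (Finset.mem_filter.1 hm'.1).2
    have h2 := (Finset.mem_filter.1 hm'.2).2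
    have : (part P m, part Q m) ∈ BB P T ×ˢ BB Q T' := by
      rw [Finset.mem_product, mem_BB, mem_BB]
      exact ⟨⟨⟨part_pos hP m, h1⟩, part_isNum hP m⟩, ⟨⟨part_pos hQ m, h2⟩, part_isNum hQ m⟩⟩
    exact_mod_cast this
  rw [h1]
  push_cast
  have h3 : ∀ bc ∈ BB P T ×ˢ BB Q T',
      (((GG P T q ∩ GG Q T' q).filter (fun m => (part P m, part Q m) = bc)).card : ℝ) =
      q * (rho P * rho Q) * ((1 : ℝ) / bc.1 * (1 / bc.2)) := by
    rintro ⟨b, c⟩ hbc
    rw [Finset.mem_product, mem_BB, mem_BB] at hbc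
    obtain ⟨⟨hb1, hb2⟩, ⟨hc1, hc2⟩⟩ := hbc
    have h2 : (GG P T q ∩ GG Q T' q).filter (fun m => (part P m, part Q m) = (b, c)) =
        (Finset.Ioc q (2 * q)).filter (fun m => part (P ∪ Q) m = b * c) := by
      ext m
      simp only [GG, Finset.mem_filter, Finset.mem_inter, Prod.mk.injEq]
      constructor
      · rintro ⟨⟨⟨h, _⟩, _⟩, h'⟩
        refine ⟨h, ?_⟩
        have hm0 : m ≠ 0 := by have := Finset.mem_Ioc.1 h; omega
        exact (part_joint hP hQ hd hb2 hc2 hm0).1 h'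
      · rintro ⟨h, h'⟩
        have hm0 : m ≠ 0 := by have := Finset.mem_Ioc.1 h; omega
        have h5 := (part_joint hP hQ hd hb2 hc2 hm0).2 h'
        exact ⟨⟨⟨h, by rw [h5.1]; exact hb1.2⟩, ⟨h, by rw [h5.2]; exact hc1.2⟩⟩, h5⟩
    rw [h2, count_part hPQ (hb2.mul hc2) (by
      rw [PP_union hd]; exact hq b c hb1.1 hb1.2 hc1.1 hc1.2), rho_union hP hQ hd]
    push_cast
    field_simp
  rw [Finset.sum_congr rfl h3, ← Finset.mul_sum, Finset.sum_product]
  unfold gg
  simp only [← Finset.mul_sum, ← Finset.sum_mul]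
  ring

end Pool.Agent.Helper755.PrimNT
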