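import Mathlib
import Pool.Agent.Helper755.PrimNT

set_option autoImplicit false

namespace Pool.Agent.Helper755.PrimNT

open Finset

/-- primes in [a,b) -/
def PSet (a b : ℕ) : Finset ℕ := (Finset.Ico a b).filter Nat.Prime

lemma PSet_prime {a b : ℕ} : ∀ p ∈ PSet a b, p.Prime := by
  intro p hp
  exact (Finset.mem_filter.1 hp).2

lemma mem_PSet {a b p : ℕ} : p ∈ PSet a b ↔ (a ≤ p ∧ p < b) ∧ p.Prime := by
  simp [PSet]

/-- the energy sum -/
noncomputable def En (w : ℕ) : ℝ := ∑ p ∈ PSet 0 w, Real.log p / ((p : ℝ) - 1)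

lemma log_part {P : Finset ℕ} (hP : ∀ p ∈ P, p.Prime) (m : ℕ) :
    Real.log (part P m) = ∑ p ∈ P, (m.factorization p : ℝ) * Real.log p := by
  unfold part
  push_cast
  rw [Real.log_prod (fun p hp => ?_)]
  · apply Finset.sum_congr rfl
    intro p _
    rw [Real.log_pow]
  · have := (hP p hp).pos
    positivity

lemma sum_factorization (n p : ℕ) :
    ∑ m ∈ Finset.Icc 1 n, m.factorization p = (n.factorial).factorization p := by
  have h : Finset.Icc 1 n = Finset.Ico 1 (n + 1) := by
    ext x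
    rw [Finset.mem_Icc, Finset.mem_Ico]
    omega
  rw [h, ← Finset.prod_Ico_id_eq_factorial, Nat.factorization_prod (fun x hx => by
    have := Finset.mem_Ico.1 hx; omega)]
  rw [Finset.sum_apply']

lemma En_bound (w : ℕ) (hw : 1 ≤ w) : En w ≤ 4 * Real.log w := by
  -- product of p^(w/p) divides w!
  have hw0 : (0 : ℝ) < w := by exact_mod_cast hw
  have h1 : ∀ p ∈ PSet 0 w, (w / p : ℕ) ≤ (w.factorial).factorization p := by
    intro p hp
    have hpp := PSet_prime p hp
    rw [Nat.factorization_factorial hpp (Nat.lt_succ_of_lt (Nat.lt_add_one (Nat.log p w)))]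
    have : (1:ℕ) ∈ Finset.Ico 1 (Nat.log p w + 1).succ := by
      rw [Finset.mem_Ico]; omega
    calc w / p = w / p ^ 1 := by rw [pow_one]
      _ ≤ _ := Finset.single_le_sum (f := fun i => w / p ^ i) (fun i _ => Nat.zero_le _) this
  have h2 : ∑ p ∈ PSet 0 w, ((w / p : ℕ) : ℝ) * Real.log p ≤ Real.log (w.factorial) := by
    calc ∑ p ∈ PSet 0 w, ((w / p : ℕ) : ℝ) * Real.log p
        ≤ ∑ p ∈ PSet 0 w, ((w.factorial).factorization p : ℝ) * Real.log p := by
          apply Finset.sum_le_sum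
          intro p hp
          have : (0:ℝ) ≤ Real.log p := Real.log_natCast_nonneg p
          have h3 : ((w / p : ℕ) : ℝ) ≤ ((w.factorial).factorization p : ℝ) := by
            exact_mod_cast h1 p hp
          gcongr
      _ = Real.log (part (PSet 0 w) w.factorial) := (log_part PSet_prime _).symm
      _ ≤ Real.log (w.factorial) := by
          apply Real.log_le_log
          · exact_mod_cast part_pos PSet_prime _
          · exact_mod_cast Nat.le_of_dvd (Nat.factorial_pos w)
              (part_dvd PSet_prime (Nat.factorial_ne_zero w))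
  have h3 : Real.log (w.factorial) ≤ w * Real.log w := by
    have : (w.factorial : ℝ) ≤ (w : ℝ) ^ w := by exact_mod_cast Nat.factorial_le_pow w
    calc Real.log (w.factorial) ≤ Real.log ((w : ℝ) ^ w) := by
          apply Real.log_le_log
          · exact_mod_cast Nat.factorial_pos w
          · exact this
      _ = w * Real.log w := by rw [Real.log_pow]
  have h4 : (w : ℝ) / 4 * En w ≤ ∑ p ∈ PSet 0 w, ((w / p : ℕ) : ℝ) * Real.log p := by
    unfold En
    rw [Finset.mul_sum]
    apply Finset.sum_le_sum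
    intro p hp
    have hpp := PSet_prime p hp
    have hplt := (mem_PSet.1 hp).1.2
    have hlog : (0:ℝ) ≤ Real.log p := Real.log_natCast_nonneg p
    have h2p : (2:ℝ) ≤ p := by exact_mod_cast hpp.two_le
    have hp1 : (0:ℝ) < (p:ℝ) - 1 := by linarith
    have hk1 : 1 ≤ w / p := by
      have := Nat.div_pos hplt.le hpp.pos
      omega
    have hk2 : w < p * (w / p + 1) := Nat.lt_mul_div_succ w hpp.pos
    have hk3 : w ≤ 2 * p * (w / p) := by nlinarith
    have hk4 : (w : ℝ) ≤ 2 * p * ((w / p : ℕ) : ℝ) := by exact_mod_cast hk3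
    have : (w : ℝ) / 4 * (Real.log p / ((p : ℝ) - 1)) =
        ((w : ℝ) / (4 * ((p:ℝ) - 1))) * Real.log p := by
      field_simp
    rw [this]
    apply mul_le_mul_of_nonneg_right _ hlog
    rw [div_le_iff₀ (by positivity)]
    nlinarith [hk4, (by positivity : (0:ℝ) ≤ ((w / p : ℕ) : ℝ))]
  have h5 : (w : ℝ) / 4 * En w ≤ w * Real.log w := h4.trans (h2.trans h3)
  have h6 : (w : ℝ) / 4 * En w ≤ (w : ℝ) / 4 * (4 * Real.log w) := by
    calc _ ≤ _ := h5
      _ = _ := by ring
  exact le_of_mul_le_mul_left h6 (by positivity)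

lemma fact_le (n p : ℕ) (hp : p.Prime) :
    ((n.factorial).factorization p : ℝ) ≤ n / ((p : ℝ) - 1) := by
  have h1 := Nat.sub_one_mul_factorization_factorial (n := n) hp
  have h2 : (p - 1) * (n.factorial).factorization p ≤ n := by
    rw [h1]; exact Nat.sub_le _ _
  have h2p : (2:ℝ) ≤ p := by exact_mod_cast hp.two_le
  have hp1 : (0:ℝ) < (p:ℝ) - 1 := by linarith
  rw [le_div_iff₀ hp1]
  have h3 : (((p - 1 : ℕ) : ℝ)) * ((n.factorial).factorization p : ℝ) ≤ n := by exact_mod_cast h2
  rw [Nat.cast_sub hp.one_lt.le] at h3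
  push_cast at h3
  linarith

/-- total log of smooth part -/
lemma sum_log_part (w n : ℕ) :
    ∑ m ∈ Finset.Icc 1 n, Real.log (part (PSet 0 w) m) ≤ n * En w := by
  have h1 : ∑ m ∈ Finset.Icc 1 n, Real.log (part (PSet 0 w) m) =
      ∑ p ∈ PSet 0 w, ((n.factorial).factorization p : ℝ) * Real.log p := by
    simp_rw [log_part PSet_prime]
    rw [Finset.sum_comm]
    apply Finset.sum_congr rfl
    intro p _
    rw [← Finset.sum_mul, ← sum_factorization]
    push_cast
    rfl
  rw [h1]
  unfold En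
  rw [Finset.mul_sum]
  apply Finset.sum_le_sum
  intro p hp
  have hlog : (0:ℝ) ≤ Real.log p := Real.log_natCast_nonneg p
  calc ((n.factorial).factorization p : ℝ) * Real.log p ≤ (n / ((p : ℝ) - 1)) * Real.log p := by
        apply mul_le_mul_of_nonneg_right (fact_le n p (PSet_prime p hp)) hlog
    _ = _ := by ring

lemma markov (w q B : ℕ) (hB : 1 ≤ B) :
    (((Finset.Ioc q (2 * q)).filter (fun m => B < part (PSet 0 w) m)).card : ℝ) * Real.log B
      ≤ 2 * q * En w := by
  have h0 : ∀ m, 0 ≤ Real.log (part (PSet 0 w) m) := fun m => Real.log_natCast_nonneg _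
  calc (((Finset.Ioc q (2 * q)).filter (fun m => B < part (PSet 0 w) m)).card : ℝ) * Real.log B
      = ∑ m ∈ (Finset.Ioc q (2 * q)).filter (fun m => B < part (PSet 0 w) m), Real.log B := by
        rw [Finset.sum_const, nsmul_eq_mul]
    _ ≤ ∑ m ∈ (Finset.Ioc q (2 * q)).filter (fun m => B < part (PSet 0 w) m),
          Real.log (part (PSet 0 w) m) := by
        apply Finset.sum_le_sum
        intro m hm
        apply Real.log_le_log
        · exact_mod_cast hB
        · exact_mod_cast (Finset.mem_filter.1 hm).2.le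
    _ ≤ ∑ m ∈ Finset.Icc 1 (2 * q), Real.log (part (PSet 0 w) m) := by
        apply Finset.sum_le_sum_of_subset_of_nonneg
        · intro m hm
          have := Finset.mem_Ioc.1 (Finset.mem_filter.1 hm).1
          rw [Finset.mem_Icc]
          omega
        · intro m _ _
          exact h0 m
    _ ≤ ((2 * q : ℕ) : ℝ) * En w := sum_log_part w (2 * q)
    _ = 2 * q * En w := by push_cast; ring

lemma rho_pos {P : Finset ℕ} (hP : ∀ p ∈ P, p.Prime) : 0 < rho P := by
  unfold rho
  have h1 := PP_pos hP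
  have h2 := Nat.totient_pos.2 h1
  have h3 : (0:ℝ) < PP P := by exact_mod_cast h1
  have h4 : (0:ℝ) < (PP P).totient := by exact_mod_cast h2
  positivity

lemma rho_le_one {P : Finset ℕ} (hP : ∀ p ∈ P, p.Prime) : rho P ≤ 1 := by
  unfold rho
  have h1 := PP_pos hP
  have h3 : (0:ℝ) < PP P := by exact_mod_cast h1
  rw [div_le_one h3]
  exact_mod_cast Nat.totient_le _

lemma card_GG_le (P : Finset ℕ) (T q : ℕ) : (GG P T q).card ≤ q := by
  calc (GG P T q).card ≤ (Finset.Ioc q (2 * q)).card := Finset.card_le_card (Finset.filter_subset _ _)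
    _ = q := by rw [Nat.card_Ioc]; omega

/-- a convenient modulus -/
lemma good_mod (P : Finset ℕ) (T : ℕ) : ∀ b, 1 ≤ b → b ≤ T → b * PP P ∣ T.factorial * PP P := by
  intro b hb hbT
  exact Nat.mul_dvd_mul_right (Nat.dvd_factorial hb hbT) _

lemma gg_le_one {P : Finset ℕ} (hP : ∀ p ∈ P, p.Prime) (T : ℕ) : gg P T ≤ 1 := by
  have h := card_GG (q := T.factorial * PP P) hP (good_mod P T)
  have h2 := card_GG_le P T (T.factorial * PP P)
  have hq : (0:ℝ) < ((T.factorial * PP P : ℕ) : ℝ) := by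
    exact_mod_cast Nat.mul_pos (Nat.factorial_pos T) (PP_pos hP)
  have h3 : ((GG P T (T.factorial * PP P)).card : ℝ) ≤ ((T.factorial * PP P : ℕ) : ℝ) := by
    exact_mod_cast h2
  rw [h] at h3
  nlinarith

lemma gg_nonneg {P : Finset ℕ} (hP : ∀ p ∈ P, p.Prime) (T : ℕ) : 0 ≤ gg P T := by
  unfold gg
  have := (rho_pos hP).le
  positivity

lemma isNum_of_lt {w e : ℕ} (he : 1 ≤ e) (h : e < w) : IsNum (PSet 0 w) e := by
  refine ⟨by omega, ?_⟩
  intro p hp hd
  rw [mem_PSet]
  have := Nat.le_of_dvd (by omega) hd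
  exact ⟨⟨Nat.zero_le _, by omega⟩, hp⟩

lemma BB_full {w T : ℕ} (h : T < w) : BB (PSet 0 w) T = Finset.Icc 1 T := by
  ext b
  rw [mem_BB, Finset.mem_Icc]
  constructor
  · exact fun h => h.1
  · intro hb
    exact ⟨hb, isNum_of_lt hb.1 (by omega)⟩

lemma gg_full {w T : ℕ} (h : T < w) : gg (PSet 0 w) T = rho (PSet 0 w) * (harmonic T : ℝ) := by
  unfold gg
  rw [BB_full h, harmonic_eq_sum_Icc]
  push_cast
  simp

lemma gg_full_le {w T : ℕ} : gg (PSet 0 w) T ≤ rho (PSet 0 w) * (1 + Real.log T) := by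
  unfold gg
  apply mul_le_mul_of_nonneg_left _ (rho_pos PSet_prime).le
  calc ∑ b ∈ BB (PSet 0 w) T, (1 : ℝ) / b ≤ ∑ b ∈ Finset.Icc 1 T, (1 : ℝ) / b := by
        apply Finset.sum_le_sum_of_subset_of_nonneg
        · intro b hb
          exact Finset.mem_Icc.2 (mem_BB.1 hb).1
        · intro b _ _
          positivity
    _ = (harmonic T : ℝ) := by
        rw [harmonic_eq_sum_Icc]
        push_cast
        simp
    _ ≤ 1 + Real.log T := harmonic_le_one_add_log T

/-- upper bound for rho: tends to zero -/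
lemma rho_upper (w : ℕ) (hw : 1 ≤ w) : rho (PSet 0 w) * Real.log w ≤ 1 := by
  have h1 : gg (PSet 0 w) (w - 1) ≤ 1 := gg_le_one PSet_prime _
  rw [gg_full (by omega)] at h1
  have h2 := log_add_one_le_harmonic (w - 1)
  rw [show w - 1 + 1 = w by omega] at h2
  calc rho (PSet 0 w) * Real.log w ≤ rho (PSet 0 w) * (harmonic (w - 1) : ℝ) :=
        mul_le_mul_of_nonneg_left h2 (rho_pos PSet_prime).le
    _ ≤ 1 := h1

/-- lower bound for rho -/
lemma rho_lower (K : ℕ) (hK : 1 ≤ K) : 1 ≤ 26 * K * rho (PSet 0 (2 ^ K)) := by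
  set w := 2 ^ K with hw
  set B := 2 ^ (16 * K) with hB
  set P := PSet 0 w with hP
  set q := B.factorial * PP P with hq
  have hw1 : 1 ≤ w := Nat.one_le_two_pow
  have hB1 : 1 ≤ B := Nat.one_le_two_pow
  have hlog2 : 0 < Real.log 2 := Real.log_pos (by norm_num)
  have hE : En w ≤ 4 * (K * Real.log 2) := by
    have := En_bound w hw1
    rw [hw] at this ⊢
    push_cast at this
    rw [Real.log_pow] at this
    exact this
  have hlogB : Real.log B = 16 * K * Real.log 2 := by
    rw [hB]; push_cast; rw [Real.log_pow]; push_cast; ring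
  have hqpos : (0:ℝ) < q := by
    exact_mod_cast Nat.mul_pos (Nat.factorial_pos B) (PP_pos PSet_prime)
  have hKpos : (0:ℝ) < K := by exact_mod_cast hK
  have hK1 : (1:ℝ) ≤ K := by exact_mod_cast hK
  have h1 := markov w q B hB1
  rw [hlogB] at h1
  have h2 : (((Finset.Ioc q (2 * q)).filter (fun m => B < part P m)).card : ℝ) ≤ q / 2 := by
    have h3 : (((Finset.Ioc q (2 * q)).filter (fun m => B < part P m)).card : ℝ) *
        (16 * K * Real.log 2) ≤ (q / 2) * (16 * K * Real.log 2) := by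
      calc _ ≤ 2 * q * En w := h1
        _ ≤ 2 * q * (4 * (K * Real.log 2)) := by gcongr
        _ = _ := by ring
    exact le_of_mul_le_mul_right h3 (by positivity)
  have h4 : ((GG P B q).card : ℝ) = q * gg P B := card_GG PSet_prime (good_mod P B)
  have h5 : ((GG P B q).card : ℝ) + (((Finset.Ioc q (2 * q)).filter (fun m => B < part P m)).card : ℝ)
      = q := by
    have : (GG P B q).card + ((Finset.Ioc q (2 * q)).filter (fun m => B < part P m)).card = q := by
      have h6 : (Finset.Ioc q (2 * q)).filter (fun m => B < part P m) =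
          (Finset.Ioc q (2 * q)).filter (fun m => ¬ part P m ≤ B) := by
        apply Finset.filter_congr
        intro m _
        exact not_le.symm
      rw [h6]
      unfold GG
      rw [Finset.card_filter_add_card_filter_not]
      rw [Nat.card_Ioc]; omega
    exact_mod_cast this
  have h7 : 1 / 2 ≤ gg P B := by
    have : (q:ℝ) * (1 / 2) ≤ q * gg P B := by rw [← h4]; linarith
    exact le_of_mul_le_mul_left this hqpos
  have h8 : gg P B ≤ rho P * (1 + Real.log B) := gg_full_le
  rw [hlogB] at h8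
  have hlog2' : Real.log 2 < 0.6931471808 := Real.log_two_lt_d9
  have h9 : 1 + 16 * K * Real.log 2 ≤ 13 * K := by nlinarith
  have hr := rho_pos (P := P) PSet_prime
  have h10 : rho P * (1 + 16 * K * Real.log 2) ≤ rho P * (13 * K) := by gcongr
  nlinarith

lemma part_mono {P Q : Finset ℕ} (hQ : ∀ p ∈ Q, p.Prime) (h : P ⊆ Q) (m : ℕ) :
    part P m ≤ part Q m := by
  unfold part
  apply Finset.prod_le_prod_of_subset_of_one_le' h
  intro p hp _
  exact Nat.one_le_pow _ _ (hQ p hp).pos

lemma PSet_subset {a a' b b' : ℕ} (h : a' ≤ a) (h' : b ≤ b') : PSet a b ⊆ PSet a' b' := by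
  intro p hp
  rw [mem_PSet] at hp ⊢
  exact ⟨⟨by omega, by omega⟩, hp.2⟩

lemma gg_mono {P Q : Finset ℕ} (hP : ∀ p ∈ P, p.Prime) (hQ : ∀ p ∈ Q, p.Prime) (h : P ⊆ Q) (T : ℕ) :
    gg Q T ≤ gg P T := by
  set q := T.factorial * (PP P * PP Q) with hq
  have hqpos : (0:ℝ) < q := by
    exact_mod_cast Nat.mul_pos (Nat.factorial_pos T) (Nat.mul_pos (PP_pos hP) (PP_pos hQ))
  have h1 : ((GG P T q).card : ℝ) = q * gg P T := by
    apply card_GG hP
    intro b hb hbT
    exact Nat.mul_dvd_mul (Nat.dvd_factorial hb hbT) (Dvd.intro _ rfl)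
  have h2 : ((GG Q T q).card : ℝ) = q * gg Q T := by
    apply card_GG hQ
    intro b hb hbT
    exact Nat.mul_dvd_mul (Nat.dvd_factorial hb hbT) (Dvd.intro_left _ rfl)
  have h3 : GG Q T q ⊆ GG P T q := by
    intro m hm
    unfold GG at hm ⊢
    rw [Finset.mem_filter] at hm ⊢
    exact ⟨hm.1, (part_mono hQ h m).trans hm.2⟩
  have h4 : ((GG Q T q).card : ℝ) ≤ (GG P T q).card := by exact_mod_cast Finset.card_le_card h3
  rw [h1, h2] at h4
  exact le_of_mul_le_mul_left h4 hqpos

/-- the key positive lower bound -/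
lemma gg_lower (a k : ℕ) (hk : 2 ≤ k) : 1 / 200 ≤ gg (PSet a (2 ^ (2 * k))) (2 ^ (k - 1)) := by
  have h1 : gg (PSet 0 (2 ^ (2 * k))) (2 ^ (k - 1)) ≤ gg (PSet a (2 ^ (2 * k))) (2 ^ (k - 1)) :=
    gg_mono PSet_prime PSet_prime (PSet_subset (Nat.zero_le _) le_rfl) _
  refine le_trans ?_ h1
  rw [gg_full (Nat.pow_lt_pow_right (by norm_num) (by omega))]
  have h2 := rho_lower (2 * k) (by omega)
  have h3 := log_add_one_le_harmonic (2 ^ (k - 1))
  have h4 : ((k : ℝ) - 1) * Real.log 2 ≤ Real.log ((2 ^ (k - 1) + 1 : ℕ) : ℝ) := by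
    have : Real.log ((2:ℝ) ^ (k - 1)) ≤ Real.log ((2 ^ (k - 1) + 1 : ℕ) : ℝ) := by
      apply Real.log_le_log (by positivity)
      push_cast
      linarith
    rw [Real.log_pow] at this
    rw [Nat.cast_sub (by omega)] at this
    exact_mod_cast this
  have hlog2 : 0.6931471803 < Real.log 2 := Real.log_two_gt_d9
  have hk' : (2:ℝ) ≤ k := by exact_mod_cast hk
  have hr := rho_pos (P := PSet 0 (2 ^ (2 * k))) PSet_prime
  push_cast at h2
  have h5 : ((k : ℝ) - 1) * Real.log 2 ≤ (harmonic (2 ^ (k - 1)) : ℝ) := h4.trans h3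
  have h6 : (k : ℝ) * 0.34 ≤ (harmonic (2 ^ (k - 1)) : ℝ) := by nlinarith
  set r := rho (PSet 0 (2 ^ (2 * k)))
  have h7 : 1 / (52 * k) ≤ r := by
    rw [div_le_iff₀ (by positivity)]
    linarith
  calc (1:ℝ) / 200 ≤ (1 / (52 * k)) * (k * 0.34) := by
        have : (1 / (52 * k)) * (k * 0.34) = (0.34 / 52 : ℝ) := by
          field_simp
        rw [this]; norm_num
    _ ≤ r * (harmonic (2 ^ (k - 1)) : ℝ) := by
        apply mul_le_mul h7 h6 (by positivity) hr.le

end Pool.Agent.Helper755.PrimNT
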