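import Mathlib
import Pool.Agent.Helper755.PrimNT2

set_option autoImplicit false

namespace Pool.Agent.Helper755.PrimNT

open Finset

lemma second_moment (q R : ℕ) (Om : Finset ℕ) (hOm : Om.card = q) (G : ℕ → Finset ℕ) (g : ℕ → ℝ)
    (c : ℝ) (hc : 0 < c) (hsub : ∀ i < R, G i ⊆ Om)
    (h1 : ∀ i < R, ((G i).card : ℝ) = q * g i)
    (h2 : ∀ i < R, ∀ j < R, i ≠ j → ((G i ∩ G j).card : ℝ) = q * (g i * g j))
    (h3 : ∀ i < R, c ≤ g i) (h4 : ∀ i < R, g i ≤ 1) :
    (((Om.filter (fun m => (((Finset.range R).filter (fun i => m ∈ G i)).card : ℝ) < c * R / 2)).card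
      : ℝ)) * (c * R / 2) ^ 2 ≤ q * R := by
  classical
  set X : ℕ → ℕ → ℝ := fun i m => if m ∈ G i then 1 else 0 with hX
  have hXsum : ∀ i < R, ∑ m ∈ Om, X i m = q * g i := by
    intro i hi
    rw [← h1 i hi]
    simp only [hX]
    rw [Finset.sum_boole]
    congr 2
    rw [Finset.filter_mem_eq_inter]
    exact Finset.inter_eq_right.2 (hsub i hi)
  have hXX : ∀ i < R, ∀ j < R, i ≠ j → ∑ m ∈ Om, X i m * X j m = q * (g i * g j) := by
    intro i hi j hj hij
    rw [← h2 i hi j hj hij]
    have : ∀ m ∈ Om, X i m * X j m = if m ∈ G i ∩ G j then 1 else 0 := by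
      intro m _
      simp only [hX, Finset.mem_inter]
      split_ifs <;> simp_all
    rw [Finset.sum_congr rfl this, Finset.sum_boole]
    congr 2
    rw [Finset.filter_mem_eq_inter]
    exact Finset.inter_eq_right.2 (Finset.inter_subset_left.trans (hsub i hi))
  have hsq : ∀ i, ∀ m, X i m * X i m = X i m := by
    intro i m
    simp only [hX]
    split_ifs <;> simp
  set F : ℕ → ℝ := fun m => ∑ i ∈ Finset.range R, (X i m - g i) with hF
  have hvar : ∑ m ∈ Om, (F m) ^ 2 ≤ q * R := by
    have e1 : ∑ m ∈ Om, (F m) ^ 2 = ∑ i ∈ Finset.range R, ∑ j ∈ Finset.range R,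
        ∑ m ∈ Om, (X i m - g i) * (X j m - g j) := by
      simp only [hF, sq, Finset.sum_mul_sum]
      rw [Finset.sum_comm]
      apply Finset.sum_congr rfl
      intro i _
      rw [Finset.sum_comm]
    rw [e1]
    have e2 : ∀ i ∈ Finset.range R, ∑ j ∈ Finset.range R,
        ∑ m ∈ Om, (X i m - g i) * (X j m - g j) ≤ q := by
      intro i hi
      rw [Finset.mem_range] at hi
      have e3 : ∀ j ∈ Finset.range R, ∑ m ∈ Om, (X i m - g i) * (X j m - g j) =
          if j = i then (q : ℝ) * (g i - g i * g i) else 0 := by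
        intro j hj
        rw [Finset.mem_range] at hj
        have e4 : ∑ m ∈ Om, (X i m - g i) * (X j m - g j) =
            ∑ m ∈ Om, X i m * X j m - g j * ∑ m ∈ Om, X i m - g i * ∑ m ∈ Om, X j m +
              q * (g i * g j) := by
          have : ∀ m ∈ Om, (X i m - g i) * (X j m - g j) =
            X i m * X j m - g j * X i m - g i * X j m + g i * g j := by
            intro m _; ring
          rw [Finset.sum_congr rfl this, Finset.sum_add_distrib, Finset.sum_sub_distrib,
            Finset.sum_sub_distrib, ← Finset.mul_sum, ← Finset.mul_sum, Finset.sum_const, hOm,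
            nsmul_eq_mul]
        rw [e4, hXsum i hi, hXsum j hj]
        split_ifs with hji
        · subst hji
          have : ∑ m ∈ Om, X j m * X j m = q * g j := by
            rw [← hXsum j hj]
            exact Finset.sum_congr rfl (fun m _ => hsq j m)
          rw [this]; ring
        · rw [hXX i hi j hj (fun h => hji h.symm)]; ring
      rw [Finset.sum_congr rfl e3, Finset.sum_ite_eq']
      rw [if_pos (Finset.mem_range.2 hi)]
      have := h3 i hi
      have := h4 i hi
      have hq0 : (0:ℝ) ≤ q := Nat.cast_nonneg q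
      have : g i - g i * g i ≤ 1 := by nlinarith
      calc (q:ℝ) * (g i - g i * g i) ≤ q * 1 := by gcongr
        _ = q := mul_one _
    calc _ ≤ ∑ i ∈ Finset.range R, (q : ℝ) := Finset.sum_le_sum e2
      _ = q * R := by rw [Finset.sum_const, Finset.card_range, nsmul_eq_mul]; ring
  set Lo := Om.filter (fun m => (((Finset.range R).filter (fun i => m ∈ G i)).card : ℝ) < c * R / 2)
    with hLo
  calc ((Lo.card : ℝ)) * (c * R / 2) ^ 2 = ∑ m ∈ Lo, (c * R / 2) ^ 2 := by
        rw [Finset.sum_const, nsmul_eq_mul]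
    _ ≤ ∑ m ∈ Lo, (F m) ^ 2 := by
        apply Finset.sum_le_sum
        intro m hm
        have hm' := (Finset.mem_filter.1 hm).2
        have e5 : ∑ i ∈ Finset.range R, X i m =
            (((Finset.range R).filter (fun i => m ∈ G i)).card : ℝ) := by
          simp only [hX]
          rw [Finset.sum_boole]
        have e6 : c * R ≤ ∑ i ∈ Finset.range R, g i := by
          calc c * R = ∑ i ∈ Finset.range R, c := by
                rw [Finset.sum_const, Finset.card_range, nsmul_eq_mul]; ring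
            _ ≤ _ := Finset.sum_le_sum (fun i hi => h3 i (Finset.mem_range.1 hi))
        have e7 : F m ≤ -(c * R / 2) := by
          simp only [hF]
          rw [Finset.sum_sub_distrib, e5]
          linarith
        have e8 : 0 ≤ c * R / 2 := by positivity
        nlinarith
    _ ≤ ∑ m ∈ Om, (F m) ^ 2 := by
        apply Finset.sum_le_sum_of_subset_of_nonneg (Finset.filter_subset _ _)
        intro m _ _
        positivity
    _ ≤ q * R := hvar

def Cond (δ : ℝ) (k k' : ℕ) : Prop :=
  k < k' ∧ 2 * En (2 ^ (2 * k)) ≤ δ * Real.log ((2 ^ (k' - 1) : ℕ) : ℝ) ∧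
    rho (PSet 0 (2 ^ (2 * k'))) * (2 * 2 ^ (2 * k)) ≤ δ

lemma exists_next (δ : ℝ) (hδ : 0 < δ) (k : ℕ) : ∃ k', Cond δ k k' := by
  have hlog2 : 0 < Real.log 2 := Real.log_pos (by norm_num)
  obtain ⟨N1, hN1⟩ := exists_nat_ge (2 * En (2 ^ (2 * k)) / (δ * Real.log 2))
  obtain ⟨N2, hN2⟩ := exists_nat_ge ((2 * 2 ^ (2 * k) : ℝ) / (δ * Real.log 2))
  refine ⟨k + N1 + N2 + 1, by omega, ?_, ?_⟩
  · rw [show k + N1 + N2 + 1 - 1 = k + N1 + N2 by omega]
    push_cast
    rw [Real.log_pow]
    rw [div_le_iff₀ (by positivity)] at hN1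
    calc 2 * En (2 ^ (2 * k)) ≤ N1 * (δ * Real.log 2) := hN1
      _ ≤ ((k + N1 + N2 : ℕ) : ℝ) * (δ * Real.log 2) := by
          apply mul_le_mul_of_nonneg_right _ (by positivity)
          push_cast
          have : (0:ℝ) ≤ k := Nat.cast_nonneg k
          have : (0:ℝ) ≤ N2 := Nat.cast_nonneg N2
          linarith
      _ = _ := by ring
  · set k' := k + N1 + N2 + 1 with hk'
    have h1 := rho_upper (2 ^ (2 * k')) Nat.one_le_two_pow
    push_cast at h1
    rw [Real.log_pow] at h1
    have hr := rho_pos (P := PSet 0 (2 ^ (2 * k'))) PSet_prime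
    rw [div_le_iff₀ (by positivity)] at hN2
    have h2 : (2 * 2 ^ (2 * k) : ℝ) ≤ δ * (((2 * k' : ℕ) : ℝ) * Real.log 2) := by
      calc (2 * 2 ^ (2 * k) : ℝ) ≤ N2 * (δ * Real.log 2) := hN2
        _ ≤ ((2 * k' : ℕ) : ℝ) * (δ * Real.log 2) := by
            apply mul_le_mul_of_nonneg_right _ (by positivity)
            have : N2 ≤ 2 * k' := by omega
            exact_mod_cast this
        _ = _ := by ring
    calc rho (PSet 0 (2 ^ (2 * k'))) * (2 * 2 ^ (2 * k))
        ≤ rho (PSet 0 (2 ^ (2 * k'))) * (δ * (((2 * k' : ℕ) : ℝ) * Real.log 2)) := by gcongr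
      _ = δ * (rho (PSet 0 (2 ^ (2 * k'))) * (((2 * k' : ℕ) : ℝ) * Real.log 2)) := by ring
      _ ≤ δ * 1 := by gcongr
      _ = δ := mul_one _

lemma exists_seq (δ : ℝ) (hδ : 0 < δ) : ∃ kk : ℕ → ℕ, kk 0 = 2 ∧ ∀ i, Cond δ (kk i) (kk (i + 1)) := by
  choose nx hnx using exists_next δ hδ
  refine ⟨fun i => Nat.rec 2 (fun _ k => nx k) i, rfl, ?_⟩
  intro i
  exact hnx _

lemma PP_dvd_factorial {a b J : ℕ} (h : b ≤ 2 ^ J) : PP (PSet a b) ∣ (2 ^ J).factorial := by
  rw [← Finset.prod_Ico_id_eq_factorial]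
  unfold PP
  apply Finset.prod_dvd_prod_of_subset
  intro p hp
  rw [mem_PSet] at hp
  rw [Finset.mem_Ico]
  have := hp.2.pos
  omega

lemma PSet_union {a b c : ℕ} (h1 : a ≤ b) (h2 : b ≤ c) : PSet a b ∪ PSet b c = PSet a c := by
  ext p
  rw [Finset.mem_union, mem_PSet, mem_PSet, mem_PSet]
  constructor
  · rintro (⟨h, hp⟩ | ⟨h, hp⟩)
    · exact ⟨⟨h.1, by omega⟩, hp⟩
    · exact ⟨⟨by omega, h.2⟩, hp⟩
  · rintro ⟨h, hp⟩
    rcases lt_or_ge p b with h' | h'
    · exact Or.inl ⟨⟨h.1, h'⟩, hp⟩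
    · exact Or.inr ⟨⟨h', h.2⟩, hp⟩

lemma PSet_disjoint {a b c d : ℕ} (h : b ≤ c) : Disjoint (PSet a b) (PSet c d) := by
  rw [Finset.disjoint_left]
  intro p hp hp'
  rw [mem_PSet] at hp hp'
  omega

lemma rho_anti {a b : ℕ} (h : a ≤ b) : rho (PSet 0 b) ≤ rho (PSet 0 a) := by
  rw [← PSet_union (Nat.zero_le a) h, rho_union PSet_prime PSet_prime (PSet_disjoint le_rfl)]
  have h1 := rho_le_one (P := PSet a b) PSet_prime
  have h2 := rho_pos (P := PSet 0 a) PSet_prime
  nlinarith

lemma gg_le_card (P : Finset ℕ) (hP : ∀ p ∈ P, p.Prime) (T : ℕ) : gg P T ≤ rho P * T := by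
  unfold gg
  apply mul_le_mul_of_nonneg_left _ (rho_pos hP).le
  calc ∑ b ∈ BB P T, (1:ℝ) / b ≤ ∑ b ∈ BB P T, (1:ℝ) := by
        apply Finset.sum_le_sum
        intro b hb
        have := (mem_BB.1 hb).1.1
        have h1 : (1:ℝ) ≤ b := by exact_mod_cast this
        rw [div_le_one (by positivity)]
        exact h1
    _ = (BB P T).card := by rw [Finset.sum_const, nsmul_eq_mul, mul_one]
    _ ≤ T := by
        have : (BB P T).card ≤ (Finset.Icc 1 T).card := by
          apply Finset.card_le_card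
          intro b hb
          exact Finset.mem_Icc.2 (mem_BB.1 hb).1
        rw [Nat.card_Icc] at this
        have h2 : (BB P T).card ≤ T := by omega
        exact_mod_cast h2

/-- Exceptional set bound. For suitable q, all but few m have many good stages. -/
lemma stage_count (δ : ℝ) (hδ : 0 < δ) (kk : ℕ → ℕ) (h0 : kk 0 = 2)
    (hkk : ∀ i, Cond δ (kk i) (kk (i + 1))) (R : ℕ) (q : ℕ)
    (hq : ((2 ^ (2 * kk R)).factorial) ^ 4 ∣ q) (hR : 0 < R) :
    ∃ Exc : Finset ℕ, Exc ⊆ Finset.Ioc q (2 * q) ∧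
      ((Exc.card : ℝ) ≤ q * (160000 / R + 2 * R * δ)) ∧
      ∀ m ∈ Finset.Ioc q (2 * q), m ∉ Exc →
        (R : ℝ) / 400 ≤ (((Finset.range R).filter (fun i =>
          2 * 2 ^ (2 * kk i) ≤ part (PSet 0 (2 ^ (2 * kk (i + 1)))) m ∧
          part (PSet 0 (2 ^ (2 * kk (i + 1)))) m ≤ 2 ^ (2 * kk (i + 1) - 2))).card : ℝ) := by
  classical
  set Z := (2 ^ (2 * kk R)).factorial with hZ
  have hmono : StrictMono kk := strictMono_nat_of_lt_succ (fun i => (hkk i).1)
  have h2le : ∀ i, 2 ≤ kk i := by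
    intro i
    rw [← h0]; exact hmono.monotone (Nat.zero_le i)
  have hbig : ∀ i < R, ∀ b, 1 ≤ b → b ≤ 2 ^ (2 * kk (i + 1)) → b ∣ Z := by
    intro i hi b hb hb'
    apply Nat.dvd_factorial hb
    apply hb'.trans
    apply Nat.pow_le_pow_right (by norm_num)
    have := hmono.monotone (Nat.succ_le_of_lt hi)
    simp only [Nat.succ_eq_add_one] at this
    omega
  have hPP : ∀ a, ∀ i < R, PP (PSet a (2 ^ (2 * kk (i + 1)))) ∣ Z := by
    intro a i hi
    apply PP_dvd_factorial
    apply Nat.pow_le_pow_right (by norm_num)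
    have := hmono.monotone (Nat.succ_le_of_lt hi)
    simp only [Nat.succ_eq_add_one] at this
    omega
  have hZ2 : Z * Z ∣ q := by
    refine dvd_trans ?_ hq
    exact ⟨Z * Z, by ring⟩
  set P : ℕ → Finset ℕ := fun i => PSet (2 ^ (2 * kk i)) (2 ^ (2 * kk (i + 1))) with hP
  set T : ℕ → ℕ := fun i => 2 ^ (kk (i + 1) - 1) with hT
  have hTle : ∀ i, T i ≤ 2 ^ (2 * kk (i + 1)) := by
    intro i
    apply Nat.pow_le_pow_right (by norm_num)
    omega
  have hPprime : ∀ i, ∀ p ∈ P i, p.Prime := fun i => PSet_prime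
  set G : ℕ → Finset ℕ := fun i => GG (P i) (T i) q with hG
  set g : ℕ → ℝ := fun i => gg (P i) (T i) with hg
  have hOm : (Finset.Ioc q (2 * q)).card = q := by rw [Nat.card_Ioc]; omega
  have hlow := second_moment q R (Finset.Ioc q (2 * q)) hOm G g (1 / 200) (by norm_num)
    (fun i _ => Finset.filter_subset _ _)
    (fun i hi => card_GG (hPprime i) (fun b hb hb' =>
      (Nat.mul_dvd_mul (hbig i hi b hb (hb'.trans (hTle i))) (hPP _ i hi)).trans hZ2))
    (fun i hi j hj hij => by
      apply card_GG_inter (hPprime i) (hPprime j)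
      · rcases lt_or_gt_of_ne hij with h | h
        · apply PSet_disjoint
          apply Nat.pow_le_pow_right (by norm_num)
          have := hmono.monotone (Nat.succ_le_of_lt h)
          simp only [Nat.succ_eq_add_one] at this
          omega
        · apply Disjoint.symm
          apply PSet_disjoint
          apply Nat.pow_le_pow_right (by norm_num)
          have := hmono.monotone (Nat.succ_le_of_lt h)
          simp only [Nat.succ_eq_add_one] at this
          omega
      · intro b c hb hb' hc hc'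
        refine dvd_trans ?_ hq
        have e1 := hbig i hi b hb (hb'.trans (hTle i))
        have e2 := hbig j hj c hc (hc'.trans (hTle j))
        calc b * c * (PP (P i) * PP (P j)) ∣ (Z * Z) * (Z * Z) :=
              Nat.mul_dvd_mul (Nat.mul_dvd_mul e1 e2) (Nat.mul_dvd_mul (hPP _ i hi) (hPP _ j hj))
          _ = Z ^ 4 := by ring)
    (fun i hi => gg_lower _ _ (h2le _))
    (fun i hi => gg_le_one (hPprime i) _)
  set Lo := (Finset.Ioc q (2 * q)).filter
    (fun m => (((Finset.range R).filter (fun i => m ∈ G i)).card : ℝ) < 1 / 200 * R / 2) with hLo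
  set B1 : ℕ → Finset ℕ := fun i => (Finset.Ioc q (2 * q)).filter
    (fun m => T i < part (PSet 0 (2 ^ (2 * kk i))) m) with hB1
  set B2 : ℕ → Finset ℕ := fun i =>
    GG (PSet 0 (2 ^ (2 * kk (i + 1)))) (2 * 2 ^ (2 * kk i) - 1) q with hB2
  have hRpos : (0:ℝ) < R := by exact_mod_cast hR
  have hq0 : (0:ℝ) ≤ q := Nat.cast_nonneg q
  have hLoc : (Lo.card : ℝ) ≤ q * (160000 / R) := by
    have e1 : (Lo.card : ℝ) * (1 / 200 * R / 2) ^ 2 ≤ (q * (160000 / R)) * (1 / 200 * R / 2) ^ 2 := by
      calc _ ≤ (q : ℝ) * R := hlow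
        _ = _ := by field_simp; norm_num; ring
    exact le_of_mul_le_mul_right e1 (by positivity)
  have hB1c : ∀ i < R, ((B1 i).card : ℝ) ≤ q * δ := by
    intro i hi
    have e1 := markov (2 ^ (2 * kk i)) q (T i) Nat.one_le_two_pow
    have e2 := (hkk i).2.1
    have e3 : 0 < Real.log (T i) := by
      apply Real.log_pos
      have : 2 ≤ T i := by
        calc 2 = 2 ^ 1 := by norm_num
          _ ≤ 2 ^ (kk (i + 1) - 1) := Nat.pow_le_pow_right (by norm_num) (by
            have := h2le i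
            have := (hkk i).1
            omega)
      exact_mod_cast lt_of_lt_of_le (by norm_num : 1 < 2) this
    have e4 : ((B1 i).card : ℝ) * Real.log (T i) ≤ (q * δ) * Real.log (T i) := by
      calc _ ≤ 2 * q * En (2 ^ (2 * kk i)) := e1
        _ = q * (2 * En (2 ^ (2 * kk i))) := by ring
        _ ≤ q * (δ * Real.log (T i)) := by gcongr
        _ = _ := by ring
    exact le_of_mul_le_mul_right e4 e3
  have hB2c : ∀ i < R, ((B2 i).card : ℝ) ≤ q * δ := by
    intro i hi
    have e1 : ((B2 i).card : ℝ) = q * gg (PSet 0 (2 ^ (2 * kk (i + 1)))) (2 * 2 ^ (2 * kk i) - 1) := by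
      apply card_GG PSet_prime
      intro b hb hb'
      refine (Nat.mul_dvd_mul (hbig i hi b hb ?_) (hPP _ i hi)).trans hZ2
      have : 2 * 2 ^ (2 * kk i) ≤ 2 ^ (2 * kk (i + 1)) := by
        calc 2 * 2 ^ (2 * kk i) = 2 ^ (2 * kk i + 1) := by ring
          _ ≤ _ := Nat.pow_le_pow_right (by norm_num) (by have := (hkk i).1; omega)
      omega
    rw [e1]
    have e2 := gg_le_card (PSet 0 (2 ^ (2 * kk (i + 1)))) PSet_prime (2 * 2 ^ (2 * kk i) - 1)
    have e3 := (hkk i).2.2
    have hr := rho_pos (P := PSet 0 (2 ^ (2 * kk (i + 1)))) PSet_prime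
    have e4 : ((2 * 2 ^ (2 * kk i) - 1 : ℕ) : ℝ) ≤ 2 * 2 ^ (2 * kk i) := by
      have : 2 * 2 ^ (2 * kk i) - 1 ≤ 2 * 2 ^ (2 * kk i) := Nat.sub_le _ _
      exact_mod_cast this
    have e5 : gg (PSet 0 (2 ^ (2 * kk (i + 1)))) (2 * 2 ^ (2 * kk i) - 1) ≤ δ := by
      calc _ ≤ _ := e2
        _ ≤ rho (PSet 0 (2 ^ (2 * kk (i + 1)))) * (2 * 2 ^ (2 * kk i)) := by gcongr
        _ ≤ δ := e3
    gcongr
  refine ⟨Lo ∪ (Finset.range R).biUnion (fun i => B1 i ∪ B2 i), ?_, ?_, ?_⟩
  · apply Finset.union_subset (Finset.filter_subset _ _)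
    rw [Finset.biUnion_subset]
    intro i _
    exact Finset.union_subset (Finset.filter_subset _ _) (Finset.filter_subset _ _)
  · have e1 : ((Lo ∪ (Finset.range R).biUnion (fun i => B1 i ∪ B2 i)).card : ℝ) ≤
        (Lo.card : ℝ) + ∑ i ∈ Finset.range R, (((B1 i).card : ℝ) + (B2 i).card) := by
      have e2 : (Lo ∪ (Finset.range R).biUnion (fun i => B1 i ∪ B2 i)).card ≤
          Lo.card + ∑ i ∈ Finset.range R, ((B1 i).card + (B2 i).card) := by
        refine (Finset.card_union_le _ _).trans ?_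
        gcongr
        refine Finset.card_biUnion_le.trans ?_
        apply Finset.sum_le_sum
        intro i _
        exact Finset.card_union_le _ _
      exact_mod_cast e2
    have e3 : ∑ i ∈ Finset.range R, (((B1 i).card : ℝ) + (B2 i).card) ≤ R * (2 * (q * δ)) := by
      calc _ ≤ ∑ i ∈ Finset.range R, (2 * (q * δ)) := by
            apply Finset.sum_le_sum
            intro i hi
            rw [Finset.mem_range] at hi
            have := hB1c i hi
            have := hB2c i hi
            linarith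
        _ = _ := by rw [Finset.sum_const, Finset.card_range, nsmul_eq_mul]
    calc _ ≤ _ := e1
      _ ≤ q * (160000 / R) + R * (2 * (q * δ)) := by linarith
      _ = _ := by ring
  · intro m hm hmE
    rw [Finset.mem_union, not_or, Finset.mem_biUnion] at hmE
    obtain ⟨hmLo, hmB⟩ := hmE
    push Not at hmB
    have e1 : (R : ℝ) / 400 ≤ (((Finset.range R).filter (fun i => m ∈ G i)).card : ℝ) := by
      rw [hLo, Finset.mem_filter, not_and, not_lt] at hmLo
      have := hmLo hm
      linarith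
    refine e1.trans ?_
    have : (Finset.range R).filter (fun i => m ∈ G i) ⊆ (Finset.range R).filter (fun i =>
          2 * 2 ^ (2 * kk i) ≤ part (PSet 0 (2 ^ (2 * kk (i + 1)))) m ∧
          part (PSet 0 (2 ^ (2 * kk (i + 1)))) m ≤ 2 ^ (2 * kk (i + 1) - 2)) := by
      intro i hi
      rw [Finset.mem_filter] at hi ⊢
      refine ⟨hi.1, ?_⟩
      have hb := hmB i hi.1
      rw [Finset.mem_union, not_or] at hb
      obtain ⟨hb1, hb2⟩ := hb
      have hb1' : part (PSet 0 (2 ^ (2 * kk i))) m ≤ T i := by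
        by_contra hcon
        exact hb1 (Finset.mem_filter.2 ⟨hm, not_le.1 hcon⟩)
      have hb2' : ¬ part (PSet 0 (2 ^ (2 * kk (i + 1)))) m ≤ 2 * 2 ^ (2 * kk i) - 1 := by
        intro hcon
        exact hb2 (Finset.mem_filter.2 ⟨hm, hcon⟩)
      have hGi : part (P i) m ≤ T i := (Finset.mem_filter.1 hi.2).2
      have hlt := (hkk i).1
      have hsplit : part (PSet 0 (2 ^ (2 * kk (i + 1)))) m =
          part (PSet 0 (2 ^ (2 * kk i))) m * part (P i) m := by
        rw [← part_union (PSet_disjoint le_rfl), PSet_union (Nat.zero_le _)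
          (Nat.pow_le_pow_right (by norm_num) (by omega))]
      refine ⟨by omega, ?_⟩
      rw [hsplit]
      calc part (PSet 0 (2 ^ (2 * kk i))) m * part (P i) m ≤ T i * T i :=
            Nat.mul_le_mul hb1' hGi
        _ = 2 ^ (2 * kk (i + 1) - 2) := by
            simp only [hT]
            rw [← pow_add]
            congr 1
            omega
    exact_mod_cast Finset.card_le_card this

end Pool.Agent.Helper755.PrimNT
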