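import Mathlib
import Pool.Agent.Helper755.PrimGame
import Pool.Agent.Helper755.PrimNT3

set_option autoImplicit false

namespace Pool.Agent.Helper755.PrimFinal

open Finset
open Pool.Agent.Helper755.PrimNT Pool.Agent.Helper755.PrimGame

/-- The rough numbers of level j. -/
def XJ (q K j : ℕ) : Finset ℕ :=
  (Finset.Ioc (q / 2 ^ j) (2 * (q / 2 ^ j))).filter (fun x => Nat.Coprime (PP (PSet 0 (2 ^ K))) x)

lemma mem_XJ {q K j x : ℕ} : x ∈ XJ q K j ↔
    (q / 2 ^ j < x ∧ x ≤ 2 * (q / 2 ^ j)) ∧ Nat.Coprime (PP (PSet 0 (2 ^ K))) x := by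
  simp [XJ, Finset.mem_filter, Finset.mem_Ioc]

lemma part_of_XJ {q K j x a : ℕ} (hjK : j < K) (hq : 2 ^ j ∣ q) (hx : x ∈ XJ q K j)
    (ha : 0 < a) (ha' : a ≤ 2 * q) (hxa : x ∣ a) : a = part (PSet 0 (2 ^ K)) a * x := by
  obtain ⟨s, hs⟩ := hq
  have h2 : 0 < 2 ^ j := by positivity
  have hs' : q / 2 ^ j = s := by rw [hs]; exact Nat.mul_div_cancel_left s h2
  rw [mem_XJ, hs'] at hx
  obtain ⟨e, he⟩ := hxa
  have he0 : 1 ≤ e := by
    rcases Nat.eq_zero_or_pos e with h | h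
    · rw [h] at he; omega
    · exact h
  have hx0 : 0 < x := by omega
  have helt : e < 2 ^ (j + 1) := by
    by_contra hcon
    push Not at hcon
    have h3 : s * 2 ^ (j + 1) < x * 2 ^ (j + 1) :=
      Nat.mul_lt_mul_of_pos_right hx.1.1 (by positivity)
    have h4 : x * 2 ^ (j + 1) ≤ x * e := Nat.mul_le_mul_left _ hcon
    have h5 : s * 2 ^ (j + 1) = 2 * q := by rw [hs]; ring
    omega
  have heK : e < 2 ^ K := lt_of_lt_of_le helt (Nat.pow_le_pow_right (by norm_num) (by omega))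
  have hpart : part (PSet 0 (2 ^ K)) a = e := by
    rw [part_eq_iff PSet_prime (by omega) (isNum_of_lt he0 heK)]
    exact ⟨x, by rw [he]; ring, hx.2⟩
  rw [hpart, he]; ring

lemma exists_level {q K j : ℕ} (hjK : j < K) (hK : 2 ≤ K) (hq : 2 ^ j ∣ q) (hq0 : 0 < q) :
    ∃ ℓ : Level q, ℓ.X = XJ q K j ∧ ℓ.y = 2 ^ j := by
  have hq' := hq
  obtain ⟨s, hs⟩ := hq
  have h2 : 0 < 2 ^ j := by positivity
  have hs' : q / 2 ^ j = s := by rw [hs]; exact Nat.mul_div_cancel_left s h2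
  have hs0 : 0 < s := by
    rcases Nat.eq_zero_or_pos s with h | h
    · rw [h] at hs; omega
    · exact h
  refine ⟨⟨XJ q K j, 2 ^ j, ?_, ?_, ?_, ?_, ?_⟩, rfl, rfl⟩
  · intro x hx
    rw [mem_XJ] at hx
    have h2mem : 2 ∈ PSet 0 (2 ^ K) := mem_PSet.2 ⟨⟨by omega, by
      calc 2 < 2 ^ 2 := by norm_num
        _ ≤ 2 ^ K := Nat.pow_le_pow_right (by norm_num) hK⟩, Nat.prime_two⟩
    have h2dvd : 2 ∣ PP (PSet 0 (2 ^ K)) := Finset.dvd_prod_of_mem (fun p => p) h2mem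
    have h3 : Nat.Coprime 2 x := Nat.Coprime.coprime_dvd_left h2dvd hx.2
    exact Nat.coprime_two_left.1 h3
  · intro x hx
    rw [mem_XJ, hs'] at hx
    omega
  · intro x hx
    rw [mem_XJ, hs'] at hx
    have : s ≤ q := by rw [hs]; exact Nat.le_mul_of_pos_left s h2
    omega
  · intro a ha ha' x hx x' hx' hxa hxa'
    have e1 := part_of_XJ hjK hq' hx ha ha' hxa
    have e2 := part_of_XJ hjK hq' hx' ha ha' hxa'
    have hp : 0 < part (PSet 0 (2 ^ K)) a := part_pos PSet_prime a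
    have e3 : part (PSet 0 (2 ^ K)) a * x = part (PSet 0 (2 ^ K)) a * x' := by rw [← e1, ← e2]
    exact Nat.eq_of_mul_eq_mul_left hp e3
  · intro x hx
    rw [mem_XJ, hs'] at hx
    have hx0 : 0 < x := by omega
    -- multiples of x in (q, 2q]
    have h3 : 2 * q < 2 ^ (j + 1) * x := by
      calc 2 * q = 2 ^ (j + 1) * s := by rw [hs]; ring
        _ < 2 ^ (j + 1) * x := Nat.mul_lt_mul_of_pos_left hx.1.1 (by positivity)
    have h4 : (Finset.Ioc q (2 * q)).filter (fun m => x ∣ m) ⊆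
        (Finset.Ioc (q / x) (2 * q / x)).image (fun e => x * e) := by
      intro m hm
      rw [Finset.mem_filter, Finset.mem_Ioc] at hm
      obtain ⟨e, he⟩ := hm.2
      rw [Finset.mem_image]
      refine ⟨e, ?_, he.symm⟩
      rw [Finset.mem_Ioc]
      constructor
      · rw [Nat.div_lt_iff_lt_mul hx0]
        rw [mul_comm, ← he]; exact hm.1.1
      · rw [Nat.le_div_iff_mul_le hx0]
        rw [mul_comm, ← he]; exact hm.1.2
    calc _ ≤ _ := Finset.card_le_card h4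
      _ ≤ (Finset.Ioc (q / x) (2 * q / x)).card := Finset.card_image_le
      _ = 2 * q / x - q / x := Nat.card_Ioc _ _
      _ ≤ 2 ^ j := by
        have h5 : q / x = (2 * q / x) / 2 := by
          rw [Nat.div_div_eq_div_mul, mul_comm x 2, ← Nat.div_div_eq_div_mul]
          congr 1
          omega
        have h6 : 2 * q / x < 2 ^ (j + 1) := by
          rw [Nat.div_lt_iff_lt_mul hx0]; exact h3
        rw [pow_succ] at h6
        rw [h5]
        omega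

lemma card_XJ_nat {q K j t : ℕ} (hq : q = 2 ^ j * (PP (PSet 0 (2 ^ K)) * t)) :
    (XJ q K j).card = (PP (PSet 0 (2 ^ K))).totient * t := by
  unfold XJ
  have h2 : 0 < 2 ^ j := by positivity
  have hs' : q / 2 ^ j = PP (PSet 0 (2 ^ K)) * t := by
    rw [hq]; exact Nat.mul_div_cancel_left _ h2
  rw [hs', two_mul]
  exact count_coprime _ _ _

lemma card_XJ_real {q K j : ℕ} (hq : 2 ^ j * PP (PSet 0 (2 ^ K)) ∣ q) :
    ((XJ q K j).card : ℝ) * 2 ^ j = q * rho (PSet 0 (2 ^ K)) := by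
  obtain ⟨t, ht⟩ := hq
  rw [mul_assoc] at ht
  rw [card_XJ_nat ht]
  have h1 : (q : ℝ) = 2 ^ j * (PP (PSet 0 (2 ^ K)) * t) := by rw [ht]; push_cast; ring
  rw [h1]
  unfold rho
  have h2 : (PP (PSet 0 (2 ^ K)) : ℝ) ≠ 0 := by
    exact_mod_cast (PP_pos (P := PSet 0 (2 ^ K)) PSet_prime).ne'
  push_cast
  field_simp

/-- stage index -/
def idx (kk : ℕ → ℕ) (j : ℕ) : ℕ := Nat.findGreatest (fun i => 2 * kk i ≤ j) j

lemma idx_spec {kk : ℕ → ℕ} (hmono : StrictMono kk) (h0 : kk 0 = 2) {j : ℕ} (hj : 4 ≤ j) :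
    2 * kk (idx kk j) ≤ j ∧ j < 2 * kk (idx kk j + 1) := by
  constructor
  · exact Nat.findGreatest_spec (P := fun i => 2 * kk i ≤ j) (Nat.zero_le j) (by
      simp only [h0]; omega)
  · by_contra hcon
    push Not at hcon
    have h1 : idx kk j + 1 ≤ kk (idx kk j + 1) := hmono.id_le _
    have h2 : idx kk j + 1 ≤ idx kk j :=
      Nat.le_findGreatest (P := fun i => 2 * kk i ≤ j) (by omega) hcon
    omega

lemma idx_eq {kk : ℕ → ℕ} (hmono : StrictMono kk) (h0 : kk 0 = 2) {i j : ℕ}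
    (h1 : 2 * kk i ≤ j) (h2 : j < 2 * kk (i + 1)) : idx kk j = i := by
  have hj : 4 ≤ j := by
    have := hmono.monotone (Nat.zero_le i)
    omega
  obtain ⟨e1, e2⟩ := idx_spec hmono h0 hj
  have e3 : idx kk j < i + 1 := hmono.lt_iff_lt.1 (by omega)
  have e4 : i < idx kk j + 1 := hmono.lt_iff_lt.1 (by omega)
  omega

def Kf (kk : ℕ → ℕ) (j : ℕ) : ℕ := 2 * kk (idx kk j + 1)

lemma Kf_mono {kk : ℕ → ℕ} (hmono : StrictMono kk) (h0 : kk 0 = 2) {j j' : ℕ} (hj : 4 ≤ j)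
    (hjj : j ≤ j') : Kf kk j ≤ Kf kk j' := by
  obtain ⟨e1, e2⟩ := idx_spec hmono h0 hj
  obtain ⟨e3, e4⟩ := idx_spec hmono h0 (hj.trans hjj)
  have e5 : idx kk j < idx kk j' + 1 := hmono.lt_iff_lt.1 (by omega)
  unfold Kf
  have := hmono.monotone (Nat.succ_le_succ (Nat.le_of_lt_succ e5))
  simp only [Nat.succ_eq_add_one] at this
  omega

lemma Kf_le {kk : ℕ → ℕ} (hmono : StrictMono kk) (h0 : kk 0 = 2) {j R : ℕ} (hj : 4 ≤ j)
    (hR : j < 2 * kk R) : Kf kk j ≤ 2 * kk R := by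
  obtain ⟨e1, e2⟩ := idx_spec hmono h0 hj
  have e5 : idx kk j < R := hmono.lt_iff_lt.1 (by omega)
  have := hmono.monotone (Nat.succ_le_of_lt e5)
  simp only [Nat.succ_eq_add_one] at this
  unfold Kf
  omega

lemma level_divides {kk : ℕ → ℕ} (hmono : StrictMono kk) (h0 : kk 0 = 2) {j R h N q : ℕ}
    (hj : 4 ≤ j) (hR : j < 2 * kk R)
    (hq : q = ((2 ^ (2 * kk R)).factorial) ^ 4 * h * (N + 1)) :
    ∃ t, 0 < t ∧ q = 2 ^ j * (PP (PSet 0 (2 ^ Kf kk j)) * (h * t)) := by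
  set Z := (2 ^ (2 * kk R)).factorial with hZ
  have hZ0 : 0 < Z := Nat.factorial_pos _
  have e1 : PP (PSet 0 (2 ^ Kf kk j)) ∣ Z :=
    PP_dvd_factorial (Nat.pow_le_pow_right (by norm_num) (Kf_le hmono h0 hj hR))
  have e2 : 2 ^ j ∣ Z := Nat.dvd_factorial (by positivity)
    (Nat.pow_le_pow_right (by norm_num) hR.le)
  obtain ⟨u, hu⟩ := e1
  obtain ⟨v, hv⟩ := e2
  have hu0 : 0 < u := by
    rcases Nat.eq_zero_or_pos u with h | h
    · rw [h] at hu; omega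
    · exact h
  have hv0 : 0 < v := by
    rcases Nat.eq_zero_or_pos v with h | h
    · rw [h] at hv; omega
    · exact h
  refine ⟨u * v * Z ^ 2 * (N + 1), by positivity, ?_⟩
  calc q = Z * Z * Z ^ 2 * h * (N + 1) := by rw [hq]; ring
    _ = (2 ^ j * v) * (PP (PSet 0 (2 ^ Kf kk j)) * u) * Z ^ 2 * h * (N + 1) := by
        rw [← hu, ← hv]
    _ = _ := by ring

lemma rho_sum_stage (K : ℕ) : (K : ℝ) * rho (PSet 0 (2 ^ K)) ≤ 2 := by
  have h1 := rho_upper (2 ^ K) Nat.one_le_two_pow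
  push_cast at h1
  rw [Real.log_pow] at h1
  have h2 : (1:ℝ) / 2 ≤ Real.log 2 := by
    have := Real.log_two_gt_d9
    linarith
  have h3 := rho_pos (P := PSet 0 (2 ^ K)) PSet_prime
  have h4 : (0:ℝ) ≤ K := Nat.cast_nonneg K
  have h5 : (K : ℝ) * rho (PSet 0 (2 ^ K)) * (1 / 2) ≤ (K : ℝ) * rho (PSet 0 (2 ^ K)) * Real.log 2 := by
    gcongr
  have h6 : rho (PSet 0 (2 ^ K)) * (K * Real.log 2) = (K : ℝ) * rho (PSet 0 (2 ^ K)) * Real.log 2 := by
    ring
  linarith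

lemma rho_sum {kk : ℕ → ℕ} (hmono : StrictMono kk) (h0 : kk 0 = 2) (R : ℕ) :
    ∑ j ∈ Finset.Ico 4 (2 * kk R), rho (PSet 0 (2 ^ Kf kk j)) ≤ 2 * R := by
  induction R with
  | zero =>
    rw [h0]
    simp
  | succ R ih =>
    have h1 : 4 ≤ 2 * kk R := by
      have := hmono.monotone (Nat.zero_le R)
      omega
    have h2 : 2 * kk R ≤ 2 * kk (R + 1) := by
      have := hmono.monotone (Nat.le_succ R)
      simp only [Nat.succ_eq_add_one] at this
      omega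
    rw [← Finset.sum_Ico_consecutive _ h1 h2]
    have h3 : ∑ j ∈ Finset.Ico (2 * kk R) (2 * kk (R + 1)), rho (PSet 0 (2 ^ Kf kk j)) ≤ 2 := by
      have h4 : ∀ j ∈ Finset.Ico (2 * kk R) (2 * kk (R + 1)), rho (PSet 0 (2 ^ Kf kk j)) =
          rho (PSet 0 (2 ^ (2 * kk (R + 1)))) := by
        intro j hj
        rw [Finset.mem_Ico] at hj
        unfold Kf
        rw [idx_eq hmono h0 hj.1 hj.2]
      rw [Finset.sum_congr rfl h4, Finset.sum_const, Nat.card_Ico, nsmul_eq_mul]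
      have h5 := rho_sum_stage (2 * kk (R + 1))
      have h6 := rho_pos (P := PSet 0 (2 ^ (2 * kk (R + 1)))) PSet_prime
      have h7 : ((2 * kk (R + 1) - 2 * kk R : ℕ) : ℝ) ≤ ((2 * kk (R + 1) : ℕ) : ℝ) := by
        exact_mod_cast Nat.sub_le _ _
      calc _ ≤ ((2 * kk (R + 1) : ℕ) : ℝ) * rho (PSet 0 (2 ^ (2 * kk (R + 1)))) := by gcongr
        _ ≤ 2 := h5
    push_cast
    linarith

/-- A good stage gives a level in that stage whose multiples contain m. -/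
lemma level_of_stage {kk : ℕ → ℕ} {q i m : ℕ} (hmul : ∀ j, j < 2 * kk (i + 1) → 2 ^ j ∣ q)
    (hm : m ∈ Finset.Ioc q (2 * q))
    (h1 : 2 * 2 ^ (2 * kk i) ≤ part (PSet 0 (2 ^ (2 * kk (i + 1)))) m)
    (h2 : part (PSet 0 (2 ^ (2 * kk (i + 1)))) m ≤ 2 ^ (2 * kk (i + 1) - 2)) :
    ∃ j, 2 * kk i ≤ j ∧ j < 2 * kk (i + 1) ∧ ∃ x ∈ XJ q (2 * kk (i + 1)) j, x ∣ m := by
  set e := part (PSet 0 (2 ^ (2 * kk (i + 1)))) m with he
  rw [Finset.mem_Ioc] at hm
  have hm0 : m ≠ 0 := by omega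
  have hem : e ∣ m := part_dvd PSet_prime hm0
  have he0 : 0 < e := part_pos PSet_prime m
  have hcop := coprime_div_part (P := PSet 0 (2 ^ (2 * kk (i + 1)))) PSet_prime hm0
  rw [← he] at hcop
  obtain ⟨x, hx⟩ := hem
  have hx' : m / e = x := by rw [hx]; exact Nat.mul_div_cancel_left x he0
  rw [hx'] at hcop
  have hx0 : 0 < x := by
    rcases Nat.eq_zero_or_pos x with h | h
    · rw [h] at hx; omega
    · exact h
  set Q := 2 * q / x with hQ
  have hQe : e ≤ Q := by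
    rw [hQ, Nat.le_div_iff_mul_le hx0, ← hx]; exact hm.2
  have hQ2 : Q < 2 * e := by
    rw [hQ, Nat.div_lt_iff_lt_mul hx0]
    calc 2 * q < 2 * m := by omega
      _ = 2 * e * x := by rw [hx]; ring
  have hQ0 : Q ≠ 0 := by omega
  have hj1 : 2 ^ (Nat.log 2 Q) ≤ Q := Nat.pow_log_le_self 2 hQ0
  have hj2 : Q < 2 ^ (Nat.log 2 Q + 1) := Nat.lt_pow_succ_log_self (by norm_num) Q
  set j := Nat.log 2 Q with hj
  have hlo : 2 * kk i ≤ j := by
    have : 2 ^ (2 * kk i + 1) < 2 ^ (j + 1) := by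
      calc 2 ^ (2 * kk i + 1) = 2 * 2 ^ (2 * kk i) := by ring
        _ ≤ e := h1
        _ ≤ Q := hQe
        _ < _ := hj2
    have := (Nat.pow_lt_pow_iff_right (by norm_num)).1 this
    omega
  have hkpos : 2 ≤ 2 * kk (i + 1) := by
    by_contra hcon
    have h3 : 2 * kk (i + 1) = 0 := by omega
    rw [h3] at h2
    have : 1 ≤ 2 ^ (2 * kk i) := Nat.one_le_two_pow
    simp only [Nat.zero_sub, pow_zero] at h2
    omega
  have hhi : j < 2 * kk (i + 1) := by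
    have : 2 ^ j < 2 ^ (2 * kk (i + 1)) := by
      calc 2 ^ j ≤ Q := hj1
        _ < 2 * e := hQ2
        _ ≤ 2 * 2 ^ (2 * kk (i + 1) - 2) := by omega
        _ = 2 ^ (2 * kk (i + 1) - 2 + 1) := by ring
        _ ≤ 2 ^ (2 * kk (i + 1)) := Nat.pow_le_pow_right (by norm_num) (by omega)
    exact (Nat.pow_lt_pow_iff_right (by norm_num)).1 this
  refine ⟨j, hlo, hhi, x, ?_, ⟨e, by rw [hx]; ring⟩⟩
  rw [mem_XJ]
  refine ⟨?_, hcop⟩
  obtain ⟨s, hs⟩ := hmul j hhi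
  have hp : 0 < 2 ^ j := by positivity
  have hs' : q / 2 ^ j = s := by rw [hs]; exact Nat.mul_div_cancel_left s hp
  rw [hs']
  constructor
  · by_contra hcon
    push Not at hcon
    rw [hQ, Nat.div_lt_iff_lt_mul hx0] at hj2
    have : 2 ^ (j + 1) * x ≤ 2 ^ (j + 1) * s := Nat.mul_le_mul_left _ hcon
    have h5 : 2 ^ (j + 1) * s = 2 * q := by rw [hs]; ring
    omega
  · rw [hQ, Nat.le_div_iff_mul_le hx0] at hj1
    have : 2 ^ j * x ≤ 2 ^ j * (2 * s) := by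
      calc 2 ^ j * x ≤ 2 * q := hj1
        _ = 2 ^ j * (2 * s) := by rw [hs]; ring
    exact Nat.le_of_mul_le_mul_left this hp

end Pool.Agent.Helper755.PrimFinal
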