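import Mathlib
import Pool.Agent.Helper755.PrimFinal

set_option autoImplicit false

namespace Pool.Agent.Helper755.PrimMain

open Finset
open Pool.Agent.Helper755.PrimNT Pool.Agent.Helper755.PrimGame Pool.Agent.Helper755.PrimFinal

/-- Double counting. -/
lemma double_count {d : ℕ} (V Exc : Finset ℕ) (E : ℕ → Finset ℕ) (c : ℝ)
    (hc : ∀ m ∈ V, m ∉ Exc → c ≤ (((Finset.range d).filter (fun i => m ∈ E i)).card : ℝ))
    (hc0 : 0 ≤ c) :
    ((V.card : ℝ) - Exc.card) * c ≤ ∑ i ∈ Finset.range d, ((V ∩ E i).card : ℝ) := by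
  classical
  have h1 : ∑ i ∈ Finset.range d, ((V ∩ E i).card : ℝ) =
      ∑ m ∈ V, (((Finset.range d).filter (fun i => m ∈ E i)).card : ℝ) := by
    have e1 : ∀ i ∈ Finset.range d, ((V ∩ E i).card : ℝ) = ∑ m ∈ V, (if m ∈ E i then (1:ℝ) else 0) := by
      intro i _
      rw [Finset.sum_boole, Finset.filter_mem_eq_inter]
    have e2 : ∀ m ∈ V, (((Finset.range d).filter (fun i => m ∈ E i)).card : ℝ) =
        ∑ i ∈ Finset.range d, (if m ∈ E i then (1:ℝ) else 0) := by
      intro m _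
      rw [Finset.sum_boole]
    rw [Finset.sum_congr rfl e1, Finset.sum_congr rfl e2, Finset.sum_comm]
  rw [h1]
  have h2 : ∑ m ∈ V \ Exc, c ≤ ∑ m ∈ V \ Exc, (((Finset.range d).filter (fun i => m ∈ E i)).card : ℝ) := by
    apply Finset.sum_le_sum
    intro m hm
    rw [Finset.mem_sdiff] at hm
    exact hc m hm.1 hm.2
  have h3 : ∑ m ∈ V \ Exc, (((Finset.range d).filter (fun i => m ∈ E i)).card : ℝ) ≤
      ∑ m ∈ V, (((Finset.range d).filter (fun i => m ∈ E i)).card : ℝ) := by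
    apply Finset.sum_le_sum_of_subset_of_nonneg Finset.sdiff_subset
    intro m _ _
    positivity
  have h4 : (V.card : ℝ) - Exc.card ≤ ((V \ Exc).card : ℝ) := by
    have : V.card ≤ (V \ Exc).card + Exc.card := by
      have := Finset.card_le_card_sdiff_add_card (s := V) (t := Exc)
      omega
    have h5 : (V.card : ℝ) ≤ ((V \ Exc).card : ℝ) + Exc.card := by exact_mod_cast this
    linarith
  rw [Finset.sum_const, nsmul_eq_mul] at h2
  calc ((V.card : ℝ) - Exc.card) * c ≤ ((V \ Exc).card : ℝ) * c := by gcongr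
    _ ≤ _ := h2
    _ ≤ _ := h3

/-- The sums of level sizes (descending) are geometric. -/
lemma geo_sum (Nj : ℕ → ℝ) (J1 d : ℕ) (hd : d ≤ J1)
    (hN : ∀ j, J1 - d ≤ j → j + 1 < J1 → 2 * Nj (j + 1) ≤ Nj j)
    (h0 : ∀ j, J1 - d ≤ j → j < J1 → 0 ≤ Nj j) :
    ∀ i, i < d → ∑ k ∈ Finset.range (i + 1), Nj (J1 - 1 - k) ≤ 2 * Nj (J1 - 1 - i) := by
  intro i
  induction i with
  | zero =>
    intro hi
    rw [Finset.sum_range_one]
    have := h0 (J1 - 1 - 0) (by omega) (by omega)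
    linarith
  | succ i ih =>
    intro hi
    rw [Finset.sum_range_succ]
    have h1 := ih (by omega)
    have h2 := hN (J1 - 1 - (i + 1)) (by omega) (by omega)
    have h3 : J1 - 1 - (i + 1) + 1 = J1 - 1 - i := by omega
    rw [h3] at h2
    linarith

theorem core (ε : ℝ) (hε : 0 < ε) (N : ℕ)
    (hyp : ∀ n : ℕ, N ≤ n → ∃ W : Finset ℕ → Prop, Win n W ∧
      ∀ S, W S → Terminal n S → ε * (n : ℝ) ≤ (S.card : ℝ)) : False := by
  classical
  obtain ⟨h1, hh1⟩ := exists_nat_ge (4 * 3204 / ε)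
  set h := h1 + 1 with hh
  have hhpos : (0:ℝ) < h := by rw [hh]; positivity
  have hhge : 3204 / (h:ℝ) ≤ ε / 4 := by
    have e1 : 4 * 3204 / ε ≤ h := by rw [hh]; push_cast; linarith
    rw [div_le_iff₀ hε] at e1
    rw [div_le_iff₀ hhpos]
    linarith
  obtain ⟨R1, hR1⟩ := exists_nat_ge (1600 * h / ε)
  obtain ⟨R2, hR2⟩ := exists_nat_ge (640000 / ε)
  set R := R1 + R2 + 1 with hR
  have hRpos : (0:ℝ) < R := by rw [hR]; positivity
  have hRnat : 0 < R := by omega
  have hRge1 : 400 * h / (R:ℝ) ≤ ε / 4 := by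
    have e1 : 1600 * (h:ℝ) / ε ≤ R := by
      rw [hR]; push_cast
      have : (0:ℝ) ≤ R2 := Nat.cast_nonneg _
      linarith
    rw [div_le_iff₀ hε] at e1
    rw [div_le_iff₀ hRpos]
    linarith
  have hRge2 : 160000 / (R:ℝ) ≤ ε / 4 := by
    have e1 : 640000 / ε ≤ R := by
      rw [hR]; push_cast
      have : (0:ℝ) ≤ R1 := Nat.cast_nonneg _
      linarith
    rw [div_le_iff₀ hε] at e1
    rw [div_le_iff₀ hRpos]
    linarith
  set δ : ℝ := ε / (8 * R) with hδ
  have hδpos : 0 < δ := by rw [hδ]; positivity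
  have hδR : 2 * R * δ = ε / 4 := by rw [hδ]; field_simp; ring
  obtain ⟨kk, h0, hkk⟩ := exists_seq δ hδpos
  have hmono : StrictMono kk := strictMono_nat_of_lt_succ (fun i => (hkk i).1)
  set J1 := 2 * kk R with hJ1
  have hJ1ge : 4 ≤ J1 := by
    have := hmono.monotone (Nat.zero_le R)
    omega
  set q := ((2 ^ (2 * kk R)).factorial) ^ 4 * h * (N + 1) with hq
  have hZpos : 0 < ((2 ^ (2 * kk R)).factorial) ^ 4 := pow_pos (Nat.factorial_pos _) _
  have hqpos : 0 < q := by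
    rw [hq]
    have : 0 < h := by omega
    positivity
  have hqN : N ≤ 2 * q := by
    have e1 : N + 1 ≤ q := by
      rw [hq]
      apply Nat.le_mul_of_pos_left
      have : 0 < h := by omega
      positivity
    omega
  obtain ⟨W, hWin, hterm⟩ := hyp (2 * q) hqN
  -- divisibility
  have hdiv : ∀ j, 4 ≤ j → j < J1 → ∃ t, 0 < t ∧ q = 2 ^ j * (PP (PSet 0 (2 ^ Kf kk j)) * (h * t)) :=
    fun j hj hj' => level_divides hmono h0 hj hj' hq
  have hmul : ∀ j, j < J1 → 2 ^ j ∣ q := by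
    intro j hj
    rw [hq]
    have e1 : 2 ^ j ∣ (2 ^ (2 * kk R)).factorial := Nat.dvd_factorial (by positivity)
      (Nat.pow_le_pow_right (by norm_num) (by omega))
    have e2 : 2 ^ j ∣ (2 ^ (2 * kk R)).factorial ^ 4 := dvd_pow e1 (by norm_num)
    exact (e2.mul_right _).mul_right _
  have hjK : ∀ j, 4 ≤ j → j < Kf kk j := by
    intro j hj
    exact (idx_spec hmono h0 hj).2
  -- levels
  have hlev : ∀ j, ∃ ℓ : Level q, (4 ≤ j ∧ j < J1 → ℓ.X = XJ q (Kf kk j) j ∧ ℓ.y = 2 ^ j) := by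
    intro j
    by_cases hj : 4 ≤ j ∧ j < J1
    · have e1 := hjK j hj.1
      obtain ⟨ℓ, hℓ⟩ := exists_level (q := q) (K := Kf kk j) (j := j) e1 (by omega) (hmul j hj.2) hqpos
      exact ⟨ℓ, fun _ => hℓ⟩
    · refine ⟨⟨∅, 0, by simp, by simp, by simp, by simp, by simp⟩, fun h => absurd h hj⟩
  choose L hL using hlev
  set Nj : ℕ → ℕ := fun j => (XJ q (Kf kk j) j).card with hNj
  set Mj : ℕ → ℕ := fun j => Nj j / h with hMj
  have hNM : ∀ j, 4 ≤ j → j < J1 → Nj j = h * Mj j ∧ 0 < Mj j := by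
    intro j hj hj'
    obtain ⟨t, ht, hqt⟩ := hdiv j hj hj'
    have e1 : Nj j = h * ((PP (PSet 0 (2 ^ Kf kk j))).totient * t) := by
      simp only [hNj]
      rw [card_XJ_nat hqt]; ring
    have hhp : 0 < h := by omega
    have e2 : Mj j = (PP (PSet 0 (2 ^ Kf kk j))).totient * t := by
      simp only [hMj]
      rw [e1]; exact Nat.mul_div_cancel_left _ hhp
    refine ⟨by rw [e2, e1], ?_⟩
    rw [e2]
    exact Nat.mul_pos (Nat.totient_pos.2 (PP_pos PSet_prime)) ht
  have hNreal : ∀ j, 4 ≤ j → j < J1 → (Nj j : ℝ) * 2 ^ j = q * rho (PSet 0 (2 ^ Kf kk j)) := by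
    intro j hj hj'
    obtain ⟨t, ht, hqt⟩ := hdiv j hj hj'
    apply card_XJ_real
    exact ⟨h * t, by rw [mul_assoc]; exact hqt⟩
  have hq0 : (0:ℝ) ≤ q := Nat.cast_nonneg q
  have hN2 : ∀ j, 4 ≤ j → j + 1 < J1 → 2 * (Nj (j + 1) : ℝ) ≤ Nj j := by
    intro j hj hj'
    have e1 := hNreal j hj (by omega)
    have e2 := hNreal (j + 1) (by omega) hj'
    have e3 : rho (PSet 0 (2 ^ Kf kk (j + 1))) ≤ rho (PSet 0 (2 ^ Kf kk j)) := by
      apply rho_anti
      apply Nat.pow_le_pow_right (by norm_num)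
      exact Kf_mono hmono h0 hj (by omega)
    have e4 : (2 * (Nj (j + 1) : ℝ)) * 2 ^ j ≤ (Nj j : ℝ) * 2 ^ j := by
      calc (2 * (Nj (j + 1) : ℝ)) * 2 ^ j = (Nj (j + 1) : ℝ) * 2 ^ (j + 1) := by ring
        _ = q * rho (PSet 0 (2 ^ Kf kk (j + 1))) := e2
        _ ≤ q * rho (PSet 0 (2 ^ Kf kk j)) := by gcongr
        _ = _ := e1.symm
    exact le_of_mul_le_mul_right e4 (by positivity)
  set d := J1 - 4 with hd
  have hgeo := geo_sum (fun j => (Nj j : ℝ)) J1 d (by omega)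
    (fun j hj hj' => hN2 j (by omega) hj') (fun j _ _ => Nat.cast_nonneg _)
  set tv : ℕ → ℕ := fun i => 2 * ∑ k ∈ Finset.range (i + 1), Mj (J1 - 1 - k) with htv
  set T := 2 * ∑ k ∈ Finset.range d, Mj (J1 - 1 - k) with hT
  obtain ⟨S', V, hWS, hTer, hV, hcard, hsum⟩ := game_conclusion hWin (fun i => L (J1 - 1 - i)) h
    (fun i => Mj (J1 - 1 - i)) tv T d
    (fun i hi => by
      rw [(hL (J1 - 1 - i) ⟨by omega, by omega⟩).1]
      exact (hNM (J1 - 1 - i) (by omega) (by omega)).1)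
    (fun i hi => (hNM (J1 - 1 - i) (by omega) (by omega)).2)
    (fun i hi => le_rfl)
    (fun i hi => by
      simp only [htv, hT]
      apply Nat.mul_le_mul_left
      apply Finset.sum_le_sum_of_subset
      exact Finset.range_subset_range.2 (by omega))
    le_rfl
  -- bound tv
  have hmulM : ∀ i, i ≤ d → (h : ℝ) * ((∑ k ∈ Finset.range i, Mj (J1 - 1 - k) : ℕ) : ℝ) =
      ∑ k ∈ Finset.range i, (Nj (J1 - 1 - k) : ℝ) := by
    intro i hi
    push_cast
    rw [Finset.mul_sum]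
    apply Finset.sum_congr rfl
    intro k hk
    rw [Finset.mem_range] at hk
    have := (hNM (J1 - 1 - k) (by omega) (by omega)).1
    rw [this]
    push_cast; ring
  have htvb : ∀ i, i < d → (h : ℝ) * (tv i : ℝ) ≤ 4 * (Nj (J1 - 1 - i) : ℝ) := by
    intro i hi
    have e1 := hgeo i hi
    have e2 := hmulM (i + 1) (by omega)
    simp only [htv]
    push_cast at e2 ⊢
    linarith
  have hTb : (h : ℝ) * (T : ℝ) ≤ 4 * q := by
    rcases Nat.eq_zero_or_pos d with hd0 | hd0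
    · rw [hT, hd0]; simp
    · have e1 := hgeo (d - 1) (by omega)
      have e2 := hmulM d le_rfl
      rw [show d - 1 + 1 = d by omega] at e1
      have e3 : (Nj (J1 - 1 - (d - 1)) : ℝ) ≤ q := by
        have e4 := hNreal (J1 - 1 - (d - 1)) (by omega) (by omega)
        have e5 := rho_le_one (P := PSet 0 (2 ^ Kf kk (J1 - 1 - (d - 1)))) PSet_prime
        have e6 : (1:ℝ) ≤ 2 ^ (J1 - 1 - (d - 1)) := one_le_pow₀ (by norm_num)
        have e7 : (0:ℝ) ≤ Nj (J1 - 1 - (d - 1)) := Nat.cast_nonneg _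
        calc (Nj (J1 - 1 - (d - 1)) : ℝ) = (Nj (J1 - 1 - (d - 1)) : ℝ) * 1 := (mul_one _).symm
          _ ≤ (Nj (J1 - 1 - (d - 1)) : ℝ) * 2 ^ (J1 - 1 - (d - 1)) := by gcongr
          _ = q * rho (PSet 0 (2 ^ Kf kk (J1 - 1 - (d - 1)))) := e4
          _ ≤ q * 1 := by gcongr
          _ = q := mul_one _
      simp only [hT]
      push_cast at e2 ⊢
      linarith
  -- bound sum of tv * y
  have hty : (h : ℝ) * (∑ i ∈ Finset.range d, (tv i : ℝ) * ((L (J1 - 1 - i)).y : ℝ)) ≤ 8 * R * q := by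
    rw [Finset.mul_sum]
    have e1 : ∀ i ∈ Finset.range d, (h : ℝ) * ((tv i : ℝ) * ((L (J1 - 1 - i)).y : ℝ)) ≤
        4 * q * rho (PSet 0 (2 ^ Kf kk (J1 - 1 - i))) := by
      intro i hi
      rw [Finset.mem_range] at hi
      rw [(hL (J1 - 1 - i) ⟨by omega, by omega⟩).2]
      have e2 := htvb i hi
      have e3 := hNreal (J1 - 1 - i) (by omega) (by omega)
      push_cast
      calc (h : ℝ) * ((tv i : ℝ) * 2 ^ (J1 - 1 - i)) = ((h : ℝ) * (tv i : ℝ)) * 2 ^ (J1 - 1 - i) := by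
            ring
        _ ≤ (4 * (Nj (J1 - 1 - i) : ℝ)) * 2 ^ (J1 - 1 - i) := by gcongr
        _ = 4 * ((Nj (J1 - 1 - i) : ℝ) * 2 ^ (J1 - 1 - i)) := by ring
        _ = _ := by rw [e3]; ring
    calc _ ≤ ∑ i ∈ Finset.range d, 4 * q * rho (PSet 0 (2 ^ Kf kk (J1 - 1 - i))) :=
          Finset.sum_le_sum e1
      _ = 4 * q * ∑ i ∈ Finset.range d, rho (PSet 0 (2 ^ Kf kk (J1 - 1 - i))) := by
          rw [Finset.mul_sum]
      _ = 4 * q * ∑ j ∈ Finset.Ico 4 J1, rho (PSet 0 (2 ^ Kf kk j)) := by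
          congr 1
          apply Finset.sum_bij (fun i _ => J1 - 1 - i)
          · intro i hi
            rw [Finset.mem_range] at hi
            rw [Finset.mem_Ico]; omega
          · intro a ha b hb hab
            rw [Finset.mem_range] at ha hb
            omega
          · intro j hj
            rw [Finset.mem_Ico] at hj
            exact ⟨J1 - 1 - j, by rw [Finset.mem_range]; omega, by omega⟩
          · intro i _
            rfl
      _ ≤ 4 * q * (2 * R) := by
          gcongr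
          exact rho_sum hmono h0 R
      _ = _ := by ring
  -- exceptional set
  obtain ⟨Exc, hExc, hExcc, hgood⟩ := stage_count δ hδpos kk h0 hkk R q
    (by rw [hq, mul_assoc]; exact dvd_mul_right _ _) hRnat
  have hcount : ∀ m ∈ V, m ∉ Exc → (R:ℝ) / 400 ≤
      (((Finset.range d).filter (fun i => m ∈ (L (J1 - 1 - i)).E)).card : ℝ) := by
    intro m hm hmE
    have hmO := hV hm
    refine (hgood m hmO hmE).trans ?_
    have e1 : ∀ i ∈ (Finset.range R).filter (fun i =>
          2 * 2 ^ (2 * kk i) ≤ part (PSet 0 (2 ^ (2 * kk (i + 1)))) m ∧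
          part (PSet 0 (2 ^ (2 * kk (i + 1)))) m ≤ 2 ^ (2 * kk (i + 1) - 2)),
        ∃ j, 2 * kk i ≤ j ∧ j < 2 * kk (i + 1) ∧ ∃ x ∈ XJ q (2 * kk (i + 1)) j, x ∣ m := by
      intro i hi
      rw [Finset.mem_filter, Finset.mem_range] at hi
      apply level_of_stage _ hmO hi.2.1 hi.2.2
      intro j hj
      apply hmul
      have := hmono.monotone (Nat.succ_le_of_lt hi.1)
      simp only [Nat.succ_eq_add_one] at this
      omega
    choose! jf hjf1 hjf2 hjf3 using e1
    have e2 : ((Finset.range R).filter (fun i =>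
          2 * 2 ^ (2 * kk i) ≤ part (PSet 0 (2 ^ (2 * kk (i + 1)))) m ∧
          part (PSet 0 (2 ^ (2 * kk (i + 1)))) m ≤ 2 ^ (2 * kk (i + 1) - 2))).card ≤
        ((Finset.range d).filter (fun i => m ∈ (L (J1 - 1 - i)).E)).card := by
      apply Finset.card_le_card_of_injOn (fun i => J1 - 1 - jf i)
      · intro i hi
        have hi' := hi
        rw [Finset.mem_coe, Finset.mem_filter, Finset.mem_range] at hi'
        have a1 := hjf1 i hi
        have a2 := hjf2 i hi
        obtain ⟨x, hx, hxm⟩ := hjf3 i hi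
        have a3 := hmono.monotone (Nat.succ_le_of_lt hi'.1)
        simp only [Nat.succ_eq_add_one] at a3
        have a4 := hmono.monotone (Nat.zero_le i)
        have a5 : 4 ≤ jf i := by omega
        have a6 : jf i < J1 := by omega
        rw [Finset.mem_coe, Finset.mem_filter, Finset.mem_range]
        beta_reduce
        refine ⟨by omega, ?_⟩
        have a7 : J1 - 1 - (J1 - 1 - jf i) = jf i := by omega
        rw [a7]
        unfold Level.E
        rw [Finset.mem_filter]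
        refine ⟨hmO, x, ?_, hxm⟩
        rw [(hL (jf i) ⟨a5, a6⟩).1]
        unfold Kf
        rw [idx_eq hmono h0 a1 a2]
        exact hx
      · intro i hi i' hi' hii
        have hi1 := hi
        have hi1' := hi'
        rw [Finset.mem_coe, Finset.mem_filter, Finset.mem_range] at hi1 hi1'
        have a1 := hjf1 i hi
        have a2 := hjf2 i hi
        have a1' := hjf1 i' hi'
        have a2' := hjf2 i' hi'
        have a3 := hmono.monotone (Nat.succ_le_of_lt hi1.1)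
        have a3' := hmono.monotone (Nat.succ_le_of_lt hi1'.1)
        simp only [Nat.succ_eq_add_one] at a3 a3'
        simp only at hii
        have a4 : jf i = jf i' := by omega
        rw [← idx_eq hmono h0 a1 a2, ← idx_eq hmono h0 a1' a2', a4]
    exact_mod_cast e2
  have hdc := double_count (d := d) V Exc (fun i => (L (J1 - 1 - i)).E) ((R:ℝ) / 400) hcount
    (by positivity)
  have hsumR : ∑ i ∈ Finset.range d, ((V ∩ (L (J1 - 1 - i)).E).card : ℝ) ≤
      (h : ℝ) * q + ∑ i ∈ Finset.range d, (tv i : ℝ) * ((L (J1 - 1 - i)).y : ℝ) := by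
    exact_mod_cast hsum
  have hSc := hterm S' hWS hTer
  have hSc2 : (S'.card : ℝ) ≤ T + V.card := by exact_mod_cast hcard
  push_cast at hSc
  -- final arithmetic
  have hqp : (0:ℝ) < q := by exact_mod_cast hqpos
  set A := ∑ i ∈ Finset.range d, (tv i : ℝ) * ((L (J1 - 1 - i)).y : ℝ) with hA
  have f1 : (T:ℝ) ≤ 4 * q / h := by
    rw [le_div_iff₀ hhpos]; linarith
  have f2 : A ≤ 8 * R * q / h := by
    rw [le_div_iff₀ hhpos]; linarith
  have f3 : (V.card : ℝ) - Exc.card ≤ 400 / R * (h * q + 8 * R * q / h) := by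
    have : ((V.card : ℝ) - Exc.card) * (R / 400) ≤ h * q + 8 * R * q / h := by linarith
    calc (V.card : ℝ) - Exc.card = (((V.card : ℝ) - Exc.card) * (R / 400)) * (400 / R) := by
          field_simp
      _ ≤ (h * q + 8 * R * q / h) * (400 / R) := by gcongr
      _ = _ := by ring
  have f4 : 400 / (R:ℝ) * ((h:ℝ) * q + 8 * R * q / h) = q * (400 * (h:ℝ) / R) + q * (3200 / (h:ℝ)) := by
    field_simp
    ring
  have f5 : ε * (2 * (q:ℝ)) ≤ q * (4 / (h:ℝ) + (160000 / (R:ℝ) + 2 * R * δ) + 400 * (h:ℝ) / R + 3200 / (h:ℝ)) := by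
    have g1 : 4 * (q:ℝ) / h = q * (4 / h) := by ring
    rw [g1] at f1
    rw [f4] at f3
    have g2 : (q:ℝ) * (4 / (h:ℝ) + (160000 / (R:ℝ) + 2 * R * δ) + 400 * (h:ℝ) / R + 3200 / (h:ℝ)) =
      q * (4 / (h:ℝ)) + q * (160000 / (R:ℝ) + 2 * R * δ) + q * (400 * (h:ℝ) / R) + q * (3200 / (h:ℝ)) := by ring
    rw [g2]
    linarith
  have f6 : 4 / (h:ℝ) + (160000 / (R:ℝ) + 2 * R * δ) + 400 * (h:ℝ) / R + 3200 / (h:ℝ) ≤ ε := by
    have : 4 / (h:ℝ) + 3200 / h = 3204 / h := by ring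
    linarith
  have f7 : ε * (2 * (q:ℝ)) ≤ q * ε := f5.trans (by gcongr)
  have f8 : 0 < ε * q := by positivity
  linarith

end Pool.Agent.Helper755.PrimMain
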